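import Pool.Agent.U640.MS.Stm
import Pool.Agent.H776R2.Om.Base

/-!
# MS-LOW: superpolynomial growth of `G_ω`, `ω = 0101...` (helper780; project of helper640)

A list `l` of elements is independent if the products `l₀ ^ e₀ * l₁ ^ e₁ * ...` with natural exponents
are different. An element of infinite order is an independent list with one element; the lifts to
the two halves of the tree (`J_lift`) double the length of an independent list.
-/

set_option autoImplicit false

namespace Pool.Agent.U640.MS

open Pool.Agent.H776R2.Om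
open Pool.Agent.H776R2.Grig
open Pool.Agent.Results.MP_03d093_al.SphereBall

namespace LOWx

lemma om_zero (p : Bool) : om p 0 = if p then 1 else 0 := by
  cases p <;> simp [om]

lemma sh_om (p : Bool) : sh (om p) = om (!p) := by
  funext n
  simp only [sh, om, Nat.even_add_one]
  cases p <;> by_cases h : Even n <;> simp [h]

lemma om_one (p : Bool) : om p 1 = om (!p) 0 := by
  rw [← sh_om]
  rfl

/-- the subgroups -/
def J (p : Bool) : Subgroup P := Jset (kil (om (!p) 0)) (om p)

lemma lift {p : Bool} {g : P} (h : g ∈ J p) : ∃ f ∈ J (!p), Sec f g 1 := by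
  have h1 := J_lift (om p) (g := g)
  rw [sh_om, sh_om, Bool.not_not, om_one] at h1
  obtain ⟨f, hf, hs⟩ := h1 h
  refine ⟨f, ?_, hs⟩
  unfold J
  rw [Bool.not_not]
  exact hf

lemma conj_mem {p : Bool} {g : P} (h : g ∈ J p) : a * g * a ∈ J p := K_conj_a h

/-- `l₀ ^ e₀ * l₁ ^ e₁ * ...` -/
def pw : List P → (ℕ → ℕ) → P
  | [], _ => 1
  | g :: l, e => g ^ e 0 * pw l fun i => e (i + 1)

lemma pw_append (l l' : List P) : ∀ e : ℕ → ℕ,
    pw (l ++ l') e = pw l e * pw l' fun i => e (i + l.length) := by
  induction l with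
  | nil => intro e; simp [pw]
  | cons g l ih =>
    intro e
    simp only [List.cons_append, pw, ih, mul_assoc, List.length_cons]
    rfl

lemma Sec_pow {f f0 f1 : P} (h : Sec f f0 f1) (n : ℕ) : Sec (f ^ n) (f0 ^ n) (f1 ^ n) := by
  induction n with
  | zero => exact Sec.one
  | succ n ih =>
    rw [pow_succ, pow_succ, pow_succ]
    exact ih.mul h

/-- independent lists -/
def Ind (l : List P) : Prop := ∀ e e' : ℕ → ℕ, pw l e = pw l e' → ∀ i < l.length, e i = e' i

lemma lifts {p : Bool} (l : List P) (h : ∀ g ∈ l, g ∈ J p) : ∃ l' : List P,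
    l'.length = l.length ∧ (∀ g ∈ l', g ∈ J (!p)) ∧ (∀ e, Sec (pw l' e) (pw l e) 1) ∧
      ∀ e, Sec (pw (l'.map fun f => a * f * a) e) 1 (pw l e) := by
  induction l with
  | nil => exact ⟨[], rfl, fun g hg => absurd hg List.not_mem_nil, fun _ => Sec.one, fun _ => Sec.one⟩
  | cons g l ih =>
    obtain ⟨l', h1, h2, h3, h4⟩ := ih fun g hg => h g (List.mem_cons_of_mem _ hg)
    obtain ⟨f, hf, hs⟩ := lift (h g List.mem_cons_self)
    refine ⟨f :: l', by simp [h1], ?_, ?_, ?_⟩
    · intro g' hg'
      rcases List.mem_cons.1 hg' with rfl | hg'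
      · exact hf
      · exact h2 g' hg'
    · intro e
      have := (Sec_pow hs (e 0)).mul (h3 fun i => e (i + 1))
      rwa [one_pow, one_mul] at this
    · intro e
      have := (Sec_pow hs.conj (e 0)).mul (h4 fun i => e (i + 1))
      rwa [one_pow, one_mul] at this

lemma double {p : Bool} (l : List P) (h : ∀ g ∈ l, g ∈ J p) (hi : Ind l) : ∃ l' : List P,
    l'.length = 2 * l.length ∧ (∀ g ∈ l', g ∈ J (!p)) ∧ Ind l' := by
  obtain ⟨l', h1, h2, h3, h4⟩ := lifts l h
  refine ⟨l' ++ l'.map fun f => a * f * a, ?_, ?_, ?_⟩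
  · rw [List.length_append, List.length_map, h1]
    ring
  · intro g hg
    rcases List.mem_append.1 hg with hg | hg
    · exact h2 g hg
    · obtain ⟨f, hf, rfl⟩ := List.mem_map.1 hg
      exact conj_mem (h2 f hf)
  · intro e e' he i hi'
    rw [pw_append, pw_append] at he
    have h5 := (h3 e).mul (h4 fun i => e (i + l'.length))
    have h6 := (h3 e').mul (h4 fun i => e' (i + l'.length))
    rw [← he] at h6
    obtain ⟨h7, h8⟩ := h5.unique h6
    rw [mul_one, mul_one] at h7
    rw [one_mul, one_mul] at h8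
    rw [List.length_append, List.length_map, h1] at hi'
    by_cases hil : i < l.length
    · exact hi e e' h7 i hil
    · have := hi _ _ h8 (i - l.length) (by omega)
      simp only [h1] at this
      rwa [Nat.sub_add_cancel (not_lt.1 hil)] at this

/-- `a b` has infinite order -/
lemma ab_inf (n : ℕ) : ∀ η : Om, (∀ i, η i ≠ 2) → (a * xx η .b) ^ n = 1 → n = 0 := by
  induction n using Nat.strong_induction_on with
  | _ n ih =>
    intro η hη h
    have hb : ∀ t : Bool, xx η .b [t] = [t] := by
      intro t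
      show xFun .b η [t] = [t]
      cases t
      · simp [xFun, aFun]
      · simp [xFun]
    have hab : ∀ t : Bool, (a * xx η .b) [t] = [!t] := by
      intro t
      rw [Equiv.Perm.mul_apply, hb, a_apply]
      rfl
    rcases Nat.even_or_odd n with hn | hn
    · obtain ⟨m, rfl⟩ := hn
      by_contra hm
      have hm' : m < m + m := by omega
      have hk : ¬ (V.b = kil (η 0)) := by
        have := hη 0
        revert this
        generalize η 0 = i
        revert i
        decide
      have hs := sec_xx η .b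
      rw [if_neg hk] at hs
      have hs2 := hs.conj.mul hs
      have e1 : a * xx η .b * a * xx η .b = (a * xx η .b) ^ 2 := by
        rw [sq]
        simp only [mul_assoc]
      rw [e1] at hs2
      have hs3 := Sec_pow hs2 m
      rw [← pow_mul, two_mul, h] at hs3
      have h7 := (Sec.one.unique hs3).2
      have := ih m hm' (sh η) (fun i => hη (i + 1)) h7.symm
      omega
    · exfalso
      obtain ⟨m, rfl⟩ := hn
      have h2 : ∀ k : ℕ, ((a * xx η .b) ^ (2 * k)) [false] = [false] := by
        intro k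
        induction k with
        | zero => rfl
        | succ k ihk =>
          have : 2 * (k + 1) = 1 + (1 + 2 * k) := by ring
          rw [this, pow_add, pow_add, Equiv.Perm.mul_apply, Equiv.Perm.mul_apply, ihk, pow_one,
            hab, hab]
          rfl
      have h3 : ((a * xx η .b) ^ (2 * m + 1)) [false] = [true] := by
        rw [pow_succ', Equiv.Perm.mul_apply, h2, hab]
        rfl
      rw [h] at h3
      simp at h3

lemma om_ne (p : Bool) (i : ℕ) : om p i ≠ 2 := by
  unfold om
  split_ifs <;> decide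

/-- an element of infinite order -/
lemma base : ∃ t ∈ J false, ∀ n : ℕ, t ^ n = 1 → n = 0 := by
  set ω := om false with hω
  refine ⟨1 * xx ω .c * 1⁻¹ * ((a * xx ω .b * a) * xx ω .c * (a * xx ω .b * a)⁻¹), ?_, ?_⟩
  · exact Subgroup.subset_closure ⟨1, Subgroup.one_mem _, a * xx ω .b * a,
      Subgroup.mul_mem _ (Subgroup.mul_mem _ (a_mem _) (xx_mem _ _)) (a_mem _), rfl⟩
  · intro n hn
    have hb := sec_xx ω .b
    have hc := sec_xx ω .c
    have k0 : kil (ω 0) = V.d := rfl
    rw [k0, if_neg (by decide)] at hb hc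
    have hinv : (a * xx ω .b * a)⁻¹ = a * xx ω .b * a := by
      rw [mul_inv_rev, mul_inv_rev, K_a_inv, J_xx_inv, mul_assoc]
    have e1 : 1 * xx ω .c * 1⁻¹ * ((a * xx ω .b * a) * xx ω .c * (a * xx ω .b * a)⁻¹) =
        xx ω .c * (a * xx ω .b * a) * xx ω .c * (a * xx ω .b * a) := by
      rw [hinv, inv_one, one_mul, mul_one]
      simp only [mul_assoc]
    rw [e1] at hn
    have hs := ((hc.mul hb.conj).mul hc).mul hb.conj
    have hs2 := Sec_pow hs n
    rw [hn] at hs2
    have h7 := (Sec.one.unique hs2).1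
    have e2 : a * xx (sh ω) .b * a * xx (sh ω) .b = (a * xx (sh ω) .b) ^ 2 := by
      rw [sq]
      simp only [mul_assoc]
    rw [e2, ← pow_mul] at h7
    have h8 := ab_inf (2 * n) (sh ω) (fun i => om_ne false (i + 1)) h7.symm
    omega

lemma exists_list (k : ℕ) : ∃ l : List P, l.length = 4 ^ k ∧ (∀ g ∈ l, g ∈ J false) ∧ Ind l := by
  induction k with
  | zero =>
    obtain ⟨t, ht, hn⟩ := base
    refine ⟨[t], rfl, ?_, ?_⟩
    · intro g hg
      rw [List.mem_singleton] at hg
      rw [hg]
      exact ht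
    · intro e e' he i hi
      simp only [pw, mul_one] at he
      rw [List.length_singleton, Nat.lt_one_iff] at hi
      subst hi
      rcases le_total (e 0) (e' 0) with h | h
      · obtain ⟨m, hm⟩ := Nat.exists_eq_add_of_le h
        rw [hm, pow_add] at he
        have := hn m (by simpa using he)
        omega
      · obtain ⟨m, hm⟩ := Nat.exists_eq_add_of_le h
        rw [hm, pow_add] at he
        have := hn m (by simpa using he)
        omega
  | succ k ih =>
    obtain ⟨l, h1, h2, h3⟩ := ih
    obtain ⟨l', h1', h2', h3'⟩ := double l h2 h3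
    obtain ⟨l'', h1'', h2'', h3''⟩ := double l' h2' h3'
    refine ⟨l'', ?_, h2'', h3''⟩
    rw [h1'', h1', h1]
    ring

lemma evo_pow (ω : Om) (w : List Lt) (n : ℕ) : ∃ w' : List Lt,
    w'.length = n * w.length ∧ evo ω w' = evo ω w ^ n := by
  induction n with
  | zero => exact ⟨[], by simp, rfl⟩
  | succ n ih =>
    obtain ⟨w', h1, h2⟩ := ih
    refine ⟨w' ++ w, ?_, ?_⟩
    · rw [List.length_append, h1]
      ring
    · rw [evo_append, h2, pow_succ]

lemma length_bound (ω : Om) (l : List P) (h : ∀ g ∈ l, ∃ w, evo ω w = g) : ∃ L : ℕ,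
    ∀ (n : ℕ) (e : ℕ → ℕ), (∀ i, e i ≤ n) → ∃ w : List Lt, w.length ≤ L * n ∧
      evo ω w = pw l e := by
  induction l with
  | nil => exact ⟨0, fun n e _ => ⟨[], by simp, rfl⟩⟩
  | cons g l ih =>
    obtain ⟨L, hL⟩ := ih fun g hg => h g (List.mem_cons_of_mem _ hg)
    obtain ⟨w, hw⟩ := h g List.mem_cons_self
    refine ⟨w.length + L, fun n e he => ?_⟩
    obtain ⟨w1, h1, h2⟩ := evo_pow ω w (e 0)
    obtain ⟨w2, h3, h4⟩ := hL n (fun i => e (i + 1)) fun i => he (i + 1)
    refine ⟨w1 ++ w2, ?_, ?_⟩
    · rw [List.length_append, h1, add_mul]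
      have := Nat.mul_le_mul_right w.length (he 0)
      nlinarith
    · rw [evo_append, h2, h4, hw]
      rfl

lemma count (k : ℕ) : ∃ L : ℕ, ∀ n : ℕ, n ^ 4 ^ k ≤ ballO (om false) (L * n) := by
  obtain ⟨l, h1, h2, h3⟩ := exists_list k
  obtain ⟨L, hL⟩ := length_bound (om false) l fun g hg => by
    obtain ⟨w, hw, -⟩ := J_word (h2 g hg)
    exact ⟨w, hw⟩
  refine ⟨L, fun n => ?_⟩
  set N := 4 ^ k with hN
  let E : (Fin N → Fin n) → ℕ → ℕ := fun e i => if h : i < N then (e ⟨i, h⟩ : ℕ) else 0
  have hE : ∀ e i, E e i ≤ n := by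
    intro e i
    simp only [E]
    split_ifs
    · exact (e _).2.le
    · exact Nat.zero_le _
  choose w hw1 hw2 using fun e : Fin N → Fin n => hL n (E e) (hE e)
  have hinj : Function.Injective fun e : Fin N → Fin n =>
      (⟨evG (om false) (w e), (lenO_le _ _).trans (hw1 e)⟩ :
        {g : Gom (om false) // lenO (om false) g ≤ L * n}) := by
    intro e e' he
    have h4 : evo (om false) (w e) = evo (om false) (w e') :=
      congrArg (fun x : {g : Gom (om false) // lenO (om false) g ≤ L * n} => (x.1 : P)) he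
    rw [hw2, hw2] at h4
    have h5 := h3 _ _ h4
    funext i
    have h6 := h5 i (by rw [h1]; exact i.2)
    simp only [E, i.2, dif_pos] at h6
    exact Fin.ext h6
  have := Nat.card_le_card_of_injective _ hinj
  simpa [Nat.card_eq_fintype_card, ballO] using this

end LOWx

open LOWx

theorem t_LOW : S_LOW := by
  intro d
  have hk : d < 4 ^ d := Nat.lt_pow_self (by norm_num)
  obtain ⟨L, hL⟩ := count d
  set M := L + 1 with hM
  refine ⟨M * (2 * M) ^ d, fun m hm => ?_⟩
  set n := m / M with hn
  have hM0 : 0 < M := Nat.succ_pos L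
  have h1 : (2 * M) ^ d ≤ n := by
    rw [hn, Nat.le_div_iff_mul_le hM0, mul_comm]
    exact hm
  have h0 : 1 ≤ n := le_trans (Nat.one_le_pow _ _ (by omega)) h1
  have h2 : m ≤ 2 * M * n := by
    have h3 : m < M * (n + 1) := Nat.lt_mul_div_succ m hM0
    nlinarith
  calc m ^ d ≤ (2 * M * n) ^ d := Nat.pow_le_pow_left h2 d
    _ = (2 * M) ^ d * n ^ d := mul_pow _ _ _
    _ ≤ n * n ^ d := Nat.mul_le_mul_right _ h1
    _ = n ^ (d + 1) := by ring
    _ ≤ n ^ 4 ^ d := Nat.pow_le_pow_right h0 hk
    _ ≤ ballO (om false) (L * n) := hL n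
    _ ≤ ballO (om false) m := by
        apply ballO_mono
        have : M * n ≤ m := Nat.mul_div_le m M
        nlinarith

end Pool.Agent.U640.MS
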