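import Pool.Agent.U640.MS.Stm

/-!
Project MS (helper640), package MOR (helper358): the combinatorics of the Morse subshift.
-/

set_option autoImplicit false

namespace Pool.Agent.U640.MS

namespace Mor

/-- the Thue-Morse sequence -/
def tm : ℕ → Bool
  | 0 => false
  | (k + 1) => xor (decide ((k + 1) % 2 = 1)) (tm ((k + 1) / 2))
decreasing_by omega

theorem tm_rec (k : ℕ) : tm k = xor (decide (k % 2 = 1)) (tm (k / 2)) := by
  cases k with
  | zero => simp [tm]
  | succ k => rw [tm]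

theorem tm_even (k : ℕ) : tm (2 * k) = tm k := by
  rw [tm_rec]
  have h1 : 2 * k % 2 = 0 := by omega
  have h2 : 2 * k / 2 = k := by omega
  simp [h1, h2]

theorem tm_odd (k : ℕ) : tm (2 * k + 1) = !(tm k) := by
  rw [tm_rec]
  have h1 : (2 * k + 1) % 2 = 1 := by omega
  have h2 : (2 * k + 1) / 2 = k := by omega
  simp [h1, h2]

/-- on the integers -/
def tmz (k : ℤ) : Bool := tm k.toNat

theorem tmz_even {k : ℤ} (hk : 0 ≤ k) : tmz (2 * k) = tmz k := by
  unfold tmz
  have : (2 * k).toNat = 2 * k.toNat := by omega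
  rw [this, tm_even]

theorem tmz_odd {k : ℤ} (hk : 0 ≤ k) : tmz (2 * k + 1) = !(tmz k) := by
  unfold tmz
  have : (2 * k + 1).toNat = 2 * k.toNat + 1 := by omega
  rw [this, tm_odd]

theorem flat (f : ℕ → Bool) (h0 : ∀ k, f (2 * k) = f k) (h1 : ∀ k, f (2 * k + 1) = !(f k)) (N : ℕ) :
    ((List.range N).map f).flatMap morse = (List.range (2 * N)).map f := by
  induction N with
  | zero => rfl
  | succ N ih =>
    have e : 2 * (N + 1) = 2 * N + 1 + 1 := by ring
    rw [e, List.range_succ, List.range_succ (n := 2 * N + 1), List.range_succ (n := 2 * N),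
      List.map_append, List.flatMap_append, ih, List.map_append, List.map_append]
    simp only [List.map_cons, List.map_nil, List.flatMap_cons, List.flatMap_nil, List.append_nil,
      List.append_assoc, h0, h1]
    cases f N <;> rfl

theorem iter_eq (n : ℕ) (a : Bool) :
    iter morse n a = (List.range (2 ^ n)).map (fun k => xor a (tm k)) := by
  induction n with
  | zero =>
    simp [iter, tm]
  | succ n ih =>
    have e : iter morse (n + 1) a = (iter morse n a).flatMap morse := by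
      unfold iter
      rw [Function.iterate_succ_apply']
    rw [e, ih, flat]
    · rw [pow_succ, mul_comm]
    · intro k; simp only [tm_even]
    · intro k; simp only [tm_odd]; cases a <;> cases tm k <;> rfl

theorem infix_iff (f : ℕ → Bool) (N m : ℕ) (g : ℕ → Bool) :
    (List.ofFn fun j : Fin m => g j) <:+: (List.range N).map f ↔
      ∃ s : ℕ, s + m ≤ N ∧ ∀ j < m, g j = f (s + j) := by
  constructor
  · rintro ⟨u, v, huv⟩
    have hl := congrArg List.length huv
    simp only [List.length_append, List.length_ofFn, List.length_map, List.length_range] at hl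
    refine ⟨u.length, by omega, fun j hj => ?_⟩
    have h1 := congrArg (fun L : List Bool => L[u.length + j]?) huv
    beta_reduce at h1
    rw [List.append_assoc, List.getElem?_append_right (by omega), Nat.add_sub_cancel_left,
      List.getElem?_append_left (by simpa using hj)] at h1
    rw [List.getElem?_map, List.getElem?_range (by omega)] at h1
    simpa [hj] using h1
  · rintro ⟨s, hs, h⟩
    have e : (List.ofFn fun j : Fin m => g j) = (((List.range N).map f).drop s).take m := by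
      apply List.ext_getElem
      · simp; omega
      · intro k h1 h2
        simp only [List.length_ofFn] at h1
        simp [h k h1]
    rw [e]
    exact (List.take_prefix _ _).isInfix.trans (List.drop_suffix _ _).isInfix

theorem mem_iff (x : ℤ → Bool) : x ∈ subshift morse ↔
    ∀ m : ℕ, ∃ c : ℤ, ∃ a : Bool, ∀ n : ℤ, -(m : ℤ) ≤ n → n ≤ m →
      0 ≤ c + n ∧ x n = xor a (tmz (c + n)) := by
  constructor
  · intro h m
    obtain ⟨n, hn, a, h1⟩ := h (-(m : ℤ)) (2 * m + 1)
    rw [iter_eq] at h1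
    have h2 := (infix_iff (fun k => xor a (tm k)) (2 ^ n) (2 * m + 1)
      (fun j => x (-(m : ℤ) + (j : ℕ)))).1 h1
    obtain ⟨s, _, h3⟩ := h2
    refine ⟨s + m, a, fun k hk1 hk2 => ⟨by omega, ?_⟩⟩
    have h4 := h3 (k + m).toNat (by omega)
    have e1 : (-(m : ℤ) + ((k + m).toNat : ℕ)) = k := by omega
    have e2 : s + (k + m).toNat = ((s : ℤ) + m + k).toNat := by omega
    rw [e1] at h4
    rw [h4, e2]
    rfl
  · intro h i m
    obtain ⟨c, a, h1⟩ := h (i.natAbs + m)
    obtain ⟨n, hn⟩ : ∃ n : ℕ, (c + i).toNat + m ≤ 2 ^ n :=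
      ⟨(c + i).toNat + m, Nat.lt_two_pow_self.le⟩
    refine ⟨n + 1, by omega, a, ?_⟩
    rw [iter_eq]
    rw [infix_iff (fun k => xor a (tm k)) (2 ^ (n + 1)) m (fun j => x (i + (j : ℕ)))]
    refine ⟨(c + i).toNat, ?_, fun j hj => ?_⟩
    · have : 2 ^ n ≤ 2 ^ (n + 1) := Nat.pow_le_pow_right (by norm_num) (by omega)
      omega
    · obtain ⟨h2, h3⟩ := h1 (i + j) (by omega) (by omega)
      obtain ⟨h4, _⟩ := h1 i (by omega) (by omega)
      rw [h3]
      unfold tmz
      have : (c + (i + (j : ℤ))).toNat = (c + i).toNat + j := by omega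
      rw [this]

theorem tm_pow (k q r : ℕ) (hr : r < 4 ^ k) : tm (q * 4 ^ k + r) = xor (tm q) (tm r) := by
  induction k generalizing r with
  | zero =>
    have : r = 0 := by simpa using hr
    subst this
    simp [tm]
  | succ k ih =>
    obtain ⟨b, hb, t, ht⟩ : ∃ b < 4, ∃ t, r = 4 * t + b := ⟨r % 4, by omega, r / 4, by omega⟩
    have ht' : t < 4 ^ k := by rw [pow_succ] at hr; omega
    have e : q * 4 ^ (k + 1) + r = 4 * (q * 4 ^ k + t) + b := by rw [ht, pow_succ]; ring
    have key : ∀ z : ℕ, tm (4 * z + b) = xor (tm z) (tm b) := by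
      intro z
      interval_cases b
      · have : 4 * z + 0 = 2 * (2 * z) := by ring
        rw [this, tm_even, tm_even]; simp [tm]
      · have : 4 * z + 1 = 2 * (2 * z) + 1 := by ring
        rw [this, tm_odd, tm_even]; simp [tm]
      · have : 4 * z + 2 = 2 * (2 * z + 1) := by ring
        rw [this, tm_even, tm_odd]; simp [tm]
      · have : 4 * z + 3 = 2 * (2 * z + 1) + 1 := by ring
        rw [this, tm_odd, tm_odd]; simp [tm]
    rw [e, key, ih t ht', ht, key]
    cases tm q <;> cases tm t <;> cases tm b <;> rfl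

/-- a point of the subshift -/
def pt (n : ℤ) : Bool := if 0 ≤ n then tm n.toNat else tm ((4 : ℤ) ^ n.natAbs + n).toNat

theorem pow_big (k : ℕ) : (k : ℤ) < 4 ^ k := by
  have : k < 4 ^ k := Nat.lt_pow_self (by norm_num)
  exact_mod_cast this

theorem pt_neg (n : ℤ) (hn : n < 0) (k : ℕ) (hk : n.natAbs ≤ k) :
    tm ((4 : ℤ) ^ k + n).toNat = pt n := by
  have h0 : ¬ 0 ≤ n := by omega
  unfold pt
  rw [if_neg h0]
  induction k, hk using Nat.le_induction with
  | base => rfl
  | succ k hk ih =>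
    rw [← ih]
    have h1 := pow_big k
    have e0 : ((4 ^ k : ℕ) : ℤ) = (4 : ℤ) ^ k := by push_cast; rfl
    have e : ((4 : ℤ) ^ (k + 1) + n).toNat = 3 * 4 ^ k + ((4 : ℤ) ^ k + n).toNat := by
      have e1 : (4 : ℤ) ^ (k + 1) = 3 * 4 ^ k + 4 ^ k := by rw [pow_succ]; ring
      rw [e1, ← e0]
      omega
    rw [e, tm_pow k 3 _ (by omega)]
    simp [tm]

theorem nonempty : (subshift morse).Nonempty := by
  refine ⟨pt, ?_⟩
  rw [mem_iff]
  intro m
  refine ⟨6 * 4 ^ m, false, fun n h1 h2 => ?_⟩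
  have h3 := pow_big m
  refine ⟨by omega, ?_⟩
  have e0 : ((4 ^ m : ℕ) : ℤ) = (4 : ℤ) ^ m := by push_cast; rfl
  rw [Bool.false_xor]
  unfold tmz
  by_cases hn : 0 ≤ n
  · have e : (6 * (4 : ℤ) ^ m + n).toNat = 6 * 4 ^ m + n.toNat := by
      rw [← e0]; omega
    rw [e, tm_pow m 6 _ (by omega)]
    unfold pt
    rw [if_pos hn]
    simp [tm]
  · have e : (6 * (4 : ℤ) ^ m + n).toNat = 5 * 4 ^ m + ((4 : ℤ) ^ m + n).toNat := by
      rw [← e0]; omega
    rw [e, tm_pow m 5 _ (by omega), pt_neg n (by omega) m (by omega)]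
    simp [tm]

theorem third (y : ℤ → Bool) (hy : y ∈ subshift morse) (e : Bool) (x : ℤ → Bool)
    (h : ∀ i : ℤ, x (2 * i + bi e) = y i ∧ x (2 * i + bi e + 1) = !(y i)) :
    x ∈ subshift morse := by
  rw [mem_iff] at hy ⊢
  intro m
  obtain ⟨c, a, hc⟩ := hy (m + 1)
  have hb : bi e = 0 ∨ bi e = 1 := by cases e <;> simp [bi]
  refine ⟨2 * c - bi e, a, fun n h1 h2 => ?_⟩
  obtain ⟨i, hi⟩ : ∃ i : ℤ, n = 2 * i + bi e ∨ n = 2 * i + bi e + 1 :=
    ⟨(n - bi e) / 2, by omega⟩
  have hi1 : -((m + 1 : ℕ) : ℤ) ≤ i := by push_cast; omega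
  have hi2 : i ≤ ((m + 1 : ℕ) : ℤ) := by push_cast; omega
  obtain ⟨h3, h4⟩ := hc i hi1 hi2
  rcases hi with hi | hi
  · have e1 : 2 * c - bi e + n = 2 * (c + i) := by rw [hi]; ring
    rw [e1, tmz_even h3, hi, (h i).1, h4]
    exact ⟨by omega, rfl⟩
  · have e1 : 2 * c - bi e + n = 2 * (c + i) + 1 := by rw [hi]; ring
    rw [e1, tmz_odd h3, hi, (h i).2, h4]
    refine ⟨by omega, ?_⟩
    cases a <;> cases tmz (c + i) <;> rfl

theorem second (x : ℤ → Bool) (hx : x ∈ subshift morse) : ∃ e : Bool, ∃ y ∈ subshift morse,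
    ∀ i : ℤ, x (2 * i + bi e) = y i ∧ x (2 * i + bi e + 1) = !(y i) := by
  rw [mem_iff] at hx
  -- the parity of the occurrence
  have key : ∃ e : Bool, ∀ M : ℕ, ∃ m : ℕ, M ≤ m ∧ ∃ d : ℤ, ∃ a : Bool,
      ∀ n : ℤ, -(m : ℤ) ≤ n → n ≤ m → 0 ≤ 2 * d - bi e + n ∧ x n = xor a (tmz (2 * d - bi e + n)) := by
    by_contra hcon
    push Not at hcon
    obtain ⟨M0, hM0⟩ := hcon false
    obtain ⟨M1, hM1⟩ := hcon true
    obtain ⟨c, a, hc⟩ := hx (M0 + M1)
    rcases Int.even_or_odd c with ⟨d, hd⟩ | ⟨d, hd⟩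
    · obtain ⟨n, h1, h2, h3⟩ := hM0 (M0 + M1) (by omega) d a
      obtain ⟨h4, h5⟩ := hc n h1 h2
      have e1 : 2 * d - bi false + n = c + n := by simp only [bi]; simp; omega
      rw [e1] at h3
      exact h3 h4 h5
    · obtain ⟨n, h1, h2, h3⟩ := hM1 (M0 + M1) (by omega) (d + 1) a
      obtain ⟨h4, h5⟩ := hc n h1 h2
      have e1 : 2 * (d + 1) - bi true + n = c + n := by simp only [bi]; simp; omega
      rw [e1] at h3
      exact h3 h4 h5
  obtain ⟨e, he⟩ := key
  have hb : bi e = 0 ∨ bi e = 1 := by cases e <;> simp [bi]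
  refine ⟨e, fun i => x (2 * i + bi e), ?_, fun i => ⟨rfl, ?_⟩⟩
  · rw [mem_iff]
    intro m
    obtain ⟨m', hm', d, a, h1⟩ := he (2 * m + 2)
    refine ⟨d, a, fun n h2 h3 => ?_⟩
    obtain ⟨h4, h5⟩ := h1 (2 * n + bi e) (by omega) (by omega)
    have e1 : 2 * d - bi e + (2 * n + bi e) = 2 * (d + n) := by ring
    rw [e1] at h4 h5
    have h6 : 0 ≤ d + n := by omega
    rw [tmz_even h6] at h5
    exact ⟨h6, h5⟩
  · obtain ⟨m', hm', d, a, h1⟩ := he (2 * i.natAbs + 3)
    obtain ⟨h4, h5⟩ := h1 (2 * i + bi e) (by omega) (by omega)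
    obtain ⟨h6, h7⟩ := h1 (2 * i + bi e + 1) (by omega) (by omega)
    have e1 : 2 * d - bi e + (2 * i + bi e) = 2 * (d + i) := by ring
    have e2 : 2 * d - bi e + (2 * i + bi e + 1) = 2 * (d + i) + 1 := by ring
    rw [e1] at h4 h5
    rw [e2] at h6 h7
    have h8 : 0 ≤ d + i := by omega
    rw [tmz_even h8] at h5
    rw [tmz_odd h8] at h7
    simp only
    rw [h7, h5]
    cases a <;> cases tmz (d + i) <;> rfl

theorem cube (q : ℕ) : ¬ (tm q = tm (q + 1) ∧ tm (q + 1) = tm (q + 2)) := by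
  rintro ⟨h1, h2⟩
  rcases Nat.even_or_odd q with ⟨r, hr⟩ | ⟨r, hr⟩
  · have e1 : q = 2 * r := by omega
    rw [e1, tm_even, tm_odd] at h1
    cases h : tm r <;> simp [h] at h1
  · have e1 : q + 1 = 2 * (r + 1) := by omega
    have e2 : q + 2 = 2 * (r + 1) + 1 := by omega
    rw [e1, e2, tm_even, tm_odd] at h2
    cases h : tm (r + 1) <;> simp [h] at h2

theorem alt (k : ℕ) : ∃ j < 4, tm (k + j) = tm (k + j + 1) := by
  by_contra hcon
  push Not at hcon
  have neq : ∀ a b : Bool, (!a) ≠ b → a = b := by decide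
  rcases Nat.even_or_odd k with ⟨q, hq⟩ | ⟨q, hq⟩
  · have h1 := hcon 1 (by norm_num)
    have h3 := hcon 3 (by norm_num)
    have e1 : k + 1 = 2 * q + 1 := by omega
    have e2 : k + 1 + 1 = 2 * (q + 1) := by omega
    have e3 : k + 3 = 2 * (q + 1) + 1 := by omega
    have e4 : k + 3 + 1 = 2 * (q + 2) := by omega
    rw [e2, e1, tm_odd, tm_even] at h1
    rw [e4, e3, tm_odd, tm_even] at h3
    exact cube q ⟨neq _ _ h1, neq _ _ h3⟩
  · have h1 := hcon 0 (by norm_num)
    have h3 := hcon 2 (by norm_num)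
    have e1 : k + 0 = 2 * q + 1 := by omega
    have e2 : k + 0 + 1 = 2 * (q + 1) := by omega
    have e3 : k + 2 = 2 * (q + 1) + 1 := by omega
    have e4 : k + 2 + 1 = 2 * (q + 2) := by omega
    rw [e2, e1, tm_odd, tm_even] at h1
    rw [e4, e3, tm_odd, tm_even] at h3
    exact cube q ⟨neq _ _ h1, neq _ _ h3⟩

theorem fourth (x : ℤ → Bool) (hx : x ∈ subshift morse) (i : ℤ) :
    ∃ j : ℤ, i ≤ j ∧ j ≤ i + 3 ∧ x j = x (j + 1) := by
  rw [mem_iff] at hx
  obtain ⟨c, a, hc⟩ := hx (i.natAbs + 5)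
  obtain ⟨h0, _⟩ := hc i (by omega) (by omega)
  obtain ⟨t, ht, h1⟩ := alt (c + i).toNat
  refine ⟨i + t, by omega, by omega, ?_⟩
  obtain ⟨_, h2⟩ := hc (i + t) (by omega) (by omega)
  obtain ⟨_, h3⟩ := hc (i + t + 1) (by omega) (by omega)
  rw [h2, h3]
  unfold tmz
  have e1 : (c + (i + (t : ℤ))).toNat = (c + i).toNat + t := by omega
  have e2 : (c + (i + (t : ℤ) + 1)).toNat = (c + i).toNat + t + 1 := by omega
  rw [e1, e2, h1]

end Mor

/-- Package MOR. -/
theorem t_MOR : S_MOR := ⟨Mor.nonempty, Mor.second, Mor.third, Mor.fourth⟩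

end Pool.Agent.U640.MS
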