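import Mathlib

/-!
Definitions: substitution subshifts, topological full groups, intermediate growth.
-/

set_option autoImplicit false

namespace Pool.Agent.U640.MS

/-- `σ^n(a)`: the `n`-th iterate of the substitution `σ`, applied to the letter `a`. -/
def iter {A : Type} (σ : A → List A) (n : ℕ) (a : A) : List A :=
  (fun w : List A => w.flatMap σ)^[n] [a]

/-- The substitution subshift: the bi-infinite sequences all of whose finite subwords occur in some
`σ^n(a)`, `n ≥ 1`. -/
def subshift {A : Type} (σ : A → List A) : Set (ℤ → A) :=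
  {x | ∀ (i : ℤ) (m : ℕ), ∃ n : ℕ, 1 ≤ n ∧ ∃ a : A,
    (List.ofFn fun j : Fin m => x (i + (j : ℕ))) <:+: iter σ n a}

/-- The Morse substitution `0 ↦ 01`, `1 ↦ 10` (`false` is `0` and `true` is `1`). -/
def morse : Bool → List Bool
  | false => [false, true]
  | true => [true, false]

/-- The left shift of a substitution subshift. -/
def shift {A : Type} (σ : A → List A) (x : subshift σ) : subshift σ :=
  ⟨fun i => (x : ℤ → A) (i + 1), fun i m => by
    obtain ⟨n, hn, a, h⟩ := x.2 (i + 1) m
    refine ⟨n, hn, a, ?_⟩
    have e : (fun j : Fin m => (x : ℤ → A) (i + (j : ℕ) + 1)) =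
        fun j : Fin m => (x : ℤ → A) (i + 1 + (j : ℕ)) := by
      funext j
      ring_nf
    rw [e]
    exact h⟩

/-- The inverse of the left shift. -/
def shiftInv {A : Type} (σ : A → List A) (x : subshift σ) : subshift σ :=
  ⟨fun i => (x : ℤ → A) (i - 1), fun i m => by
    obtain ⟨n, hn, a, h⟩ := x.2 (i - 1) m
    refine ⟨n, hn, a, ?_⟩
    have e : (fun j : Fin m => (x : ℤ → A) (i + (j : ℕ) - 1)) =
        fun j : Fin m => (x : ℤ → A) (i - 1 + (j : ℕ)) := by
      funext j
      ring_nf
    rw [e]
    exact h⟩

/-- The left shift as a homeomorphism of the subshift (with the topology induced by the product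
topology of discrete sets). -/
def T {A : Type} [TopologicalSpace A] [DiscreteTopology A] (σ : A → List A) :
    subshift σ ≃ₜ subshift σ where
  toFun := shift σ
  invFun := shiftInv σ
  left_inv x := by
    apply Subtype.ext
    funext i
    simp [shift, shiftInv]
  right_inv x := by
    apply Subtype.ext
    funext i
    simp [shift, shiftInv]
  continuous_toFun := by
    refine Continuous.subtype_mk ?_ _
    exact continuous_pi fun i => (continuous_apply (i + 1)).comp continuous_subtype_val
  continuous_invFun := by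
    refine Continuous.subtype_mk ?_ _
    exact continuous_pi fun i => (continuous_apply (i - 1)).comp continuous_subtype_val

/-- `g` belongs to the topological full group of `T`: there is a continuous map
`n : X → ℤ` with `g x = T ^ (n x) x` for all `x`. -/
def InFullGroup {X : Type} [TopologicalSpace X] (T g : X ≃ₜ X) : Prop :=
  ∃ n : X → ℤ, Continuous n ∧ ∀ x, g x = (T ^ n x) x

/-- The topological full group `[[T]]`. -/
def fullGroup {X : Type} [TopologicalSpace X] (T : X ≃ₜ X) : Subgroup (X ≃ₜ X) where
  carrier := {g | InFullGroup T g}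
  one_mem' := ⟨fun _ => 0, continuous_const, fun x => by rw [zpow_zero]⟩
  mul_mem' := by
    rintro g h ⟨n, hn, hg⟩ ⟨m, hm, hh⟩
    refine ⟨fun x => n (h x) + m x, (hn.comp h.continuous).add hm, fun x => ?_⟩
    rw [zpow_add]
    show g (h x) = (T ^ n (h x)) ((T ^ m x) x)
    rw [hg (h x), ← hh x]
  inv_mem' := by
    rintro g ⟨n, hn, hg⟩
    refine ⟨fun x => - n (g⁻¹ x), (hn.comp (g⁻¹ : X ≃ₜ X).continuous).neg, fun x => ?_⟩
    have h1 := hg (g⁻¹ x)
    have h2 : g (g⁻¹ x) = x := g.apply_symm_apply x
    rw [h2] at h1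
    have h3 : (T ^ (-n (g⁻¹ x))) x = (T ^ (-n (g⁻¹ x))) ((T ^ n (g⁻¹ x)) (g⁻¹ x)) := by
      rw [← h1]
    rw [h3]
    show g⁻¹ x = (T ^ (-n (g⁻¹ x)) * T ^ n (g⁻¹ x)) (g⁻¹ x)
    rw [← zpow_add, neg_add_cancel, zpow_zero]
    rfl

/-- the number of elements which are products of at most `r` elements of `S` and inverses of
elements of `S`: the growth function of the group generated by `S` -/
noncomputable def growth {G : Type} [Group G] (S : Set G) (r : ℕ) : ℕ :=
  {g : G | ∃ l : List G, l.length ≤ r ∧ (∀ s ∈ l, s ∈ S ∨ s⁻¹ ∈ S) ∧ l.prod = g}.ncard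

/-- The growth function of the finite set `S` grows
faster than every polynomial and slower than every exponential function. -/
def Intermediate {G : Type} [Group G] (S : Set G) : Prop :=
  (∀ d : ℕ, ∃ r₀ : ℕ, ∀ r ≥ r₀, r ^ d ≤ growth S r) ∧
  ∀ c : ℝ, 0 < c → ∃ r₀ : ℕ, ∀ r ≥ r₀, (growth S r : ℝ) ≤ Real.exp (c * r)

/-- The group `G` is finitely generated and has intermediate growth. -/
def IntermediateGrowth (G : Type) [Group G] : Prop :=
  ∃ S : Set G, S.Finite ∧ Subgroup.closure S = ⊤ ∧ Intermediate S

/-- The topological full group `[[T]]` contains a finitely generated subgroup of intermediate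
growth. -/
def ContainsIntermediate {X : Type} [TopologicalSpace X] (T : X ≃ₜ X) : Prop :=
  ∃ H : Subgroup (fullGroup T), IntermediateGrowth H

end Pool.Agent.U640.MS
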