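import Mathlib
import Pool.Agent.H776R2.Om.Defs
import Pool.Agent.U640.MS.Defs

/-!
Project MS (helper640): the topological full group of the Morse subshift contains a finitely
generated group of intermediate growth (one of the three cases of Q1 of MP_0e9457_al).
The subgroup is the Grigorchuk group `G_ω`, `ω = 0101...`.
-/

set_option autoImplicit false

namespace Pool.Agent.U640.MS

open Pool.Agent.H776R2.Om

/-! ### The packages -/

/-- the sequences `0101...` (`p = false`) and `1010...` (`p = true`) -/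
def om (p : Bool) : Om := fun n => if decide (Even n) = p then 1 else 0

/-- **Package UP**: `G_ω`, `ω = 0101...`, has subexponential growth. -/
def S_UP : Prop := ∀ s : ℝ, 0 < s → ∃ n₀ : ℕ, ∀ n ≥ n₀,
  (ballO (om false) n : ℝ) ≤ Real.exp (s * n)

/-- **Package LOW**: `G_ω`, `ω = 0101...`, has superpolynomial growth. -/
def S_LOW : Prop := ∀ d : ℕ, ∃ n₀ : ℕ, ∀ n ≥ n₀, n ^ d ≤ ballO (om false) n

/-- `e` as an integer -/
def bi (e : Bool) : ℤ := if e then 1 else 0

/-- **Package MOR**: the combinatorics of the Morse subshift: unique desubstitution. -/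
def S_MOR : Prop :=
  (subshift morse).Nonempty ∧
  (∀ x ∈ subshift morse, ∃ e : Bool, ∃ y ∈ subshift morse,
    ∀ i : ℤ, x (2 * i + bi e) = y i ∧ x (2 * i + bi e + 1) = !(y i)) ∧
  (∀ y ∈ subshift morse, ∀ e : Bool, ∀ x : ℤ → Bool,
    (∀ i : ℤ, x (2 * i + bi e) = y i ∧ x (2 * i + bi e + 1) = !(y i)) → x ∈ subshift morse) ∧
  (∀ x ∈ subshift morse, ∀ i : ℤ, ∃ j : ℤ, i ≤ j ∧ j ≤ i + 3 ∧ x j = x (j + 1))

end Pool.Agent.U640.MS
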