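import Mathlib
import Pool.Agent.U640.MS.Stm
import Pool.Agent.H776R2.Om.Upper
import Pool.Agent.H776R2.Om.KLen

/-!
# Project MS, package UP: subexponential growth of `G_ω`, `ω = 0101...`   (helper165)
-/

set_option autoImplicit false

namespace Pool.Agent.U640.MS

open Pool.Agent.Results.MP_03d093_al.SphereBall Pool.Agent.H776R2.Grig Pool.Agent.H776R2.Om

namespace UPaux

noncomputable instance instFV : Fintype V := ⟨{.b, .c, .d}, by intro x; cases x <;> simp⟩

theorem sum_V {M : Type*} [AddCommMonoid M] (f : V → M) : ∑ x : V, f x = f .b + (f .c + f .d) := by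
  show ∑ x ∈ ({.b, .c, .d} : Finset V), f x = _
  rw [Finset.sum_insert (by decide), Finset.sum_insert (by decide), Finset.sum_singleton]

/-- sum over all words of the product of the weights of the letters -/
theorem tsum_words (r : V → ENNReal) :
    ∑' v : List V, (v.map r).prod = ∑' n : ℕ, (∑ x : V, r x) ^ n := by
  rw [← (List.equivSigmaTuple (α := V)).symm.tsum_eq, ENNReal.tsum_sigma']
  refine tsum_congr fun n => ?_
  rw [tsum_fintype]
  have h1 : (∑ x : V, r x) ^ n = ∑ p : Fin n → V, ∏ i, r (p i) := by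
    rw [← Fintype.piFinset_univ, ← Finset.prod_univ_sum]
    simp
  rw [h1]
  refine Finset.sum_congr rfl fun p _ => ?_
  have h2 : (List.equivSigmaTuple (α := V)).symm ⟨n, p⟩ = List.ofFn p := rfl
  rw [h2, List.map_ofFn, List.prod_ofFn]
  rfl

theorem Kwo_U (α : V → ℝ) (v : List V) : Kwo α (U v) = (v.map α).sum := by
  induction v with
  | nil => rfl
  | cons x v ih =>
    rw [C_Kw_U_cons, ih, List.map_cons, List.sum_cons, C_wt_lt]

theorem exp_prod (α : V → ℝ) (s : ℝ) (v : List V) :
    ENNReal.ofReal (Real.exp (-s * (v.map α).sum)) =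
      (v.map fun x => ENNReal.ofReal (Real.exp (-s * α x))).prod := by
  induction v with
  | nil => simp
  | cons x v ih =>
    rw [List.map_cons, List.sum_cons, List.map_cons, List.prod_cons, ← ih,
      ← ENNReal.ofReal_mul (Real.exp_pos _).le, ← Real.exp_add]
    congr 2
    ring

/-- the partition function is finite if the letters have small total weight -/
theorem ZO_lt_top (η : Om) (α : V → ℝ) (hα : Tri α) (s : ℝ) (hs : 0 ≤ s)
    (h : Real.exp (-s * α .b) + (Real.exp (-s * α .c) + Real.exp (-s * α .d)) < 1) :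
    ZO η α s < ⊤ := by
  choose w hw hK using fun g : Gom η => E_exists (η := η) α g.2 one_pos
  choose e e' v hev _ hU _ _ using fun g : Gom η => normal_formo η α hα (w g)
  set Φ : Gom η → (Bool × Bool) × List V := fun g => ((e g, e' g), v g) with hΦ
  have hinj : Function.Injective Φ := by
    intro g g' hgg
    simp only [hΦ, Prod.mk.injEq] at hgg
    obtain ⟨⟨k1, k2⟩, k3⟩ := hgg
    apply Subtype.ext
    rw [← hw g, ← hw g', hev g, hev g', k1, k2, k3]
  set r : V → ENNReal := fun x => ENNReal.ofReal (Real.exp (-s * α x)) with hr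
  set F : (Bool × Bool) × List V → ENNReal := fun p =>
    ENNReal.ofReal (Real.exp s) * (p.2.map r).prod with hF
  have hle : ∀ g : Gom η, ENNReal.ofReal (Real.exp (-s * KO η α g)) ≤ F (Φ g) := by
    intro g
    simp only [hF, hΦ, hr]
    rw [← exp_prod, ← ENNReal.ofReal_mul (Real.exp_pos _).le, ← Real.exp_add]
    apply ENNReal.ofReal_le_ofReal
    apply Real.exp_le_exp.2
    rw [← Kwo_U]
    have h1 := hU g
    have h2 := hK g
    have h3 : Kwo α (U (v g)) ≤ KO η α g + 1 := by linarith
    have h4 := mul_le_mul_of_nonneg_left h3 hs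
    linarith
  have h3 : ZO η α s ≤ ∑' p, F p := by
    unfold ZO
    exact (ENNReal.tsum_le_tsum hle).trans (ENNReal.tsum_comp_le_tsum_of_injective hinj _)
  refine lt_of_le_of_lt h3 ?_
  have h4 : ∑' p, F p = 4 * (ENNReal.ofReal (Real.exp s) * ∑' n : ℕ, (∑ x : V, r x) ^ n) := by
    simp only [hF]
    rw [ENNReal.tsum_prod']
    simp only [ENNReal.tsum_mul_left, tsum_words]
    rw [tsum_fintype, Finset.sum_const, Finset.card_univ, nsmul_eq_mul]
    have : Fintype.card (Bool × Bool) = 4 := rfl
    rw [this]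
    push_cast
    ring
  rw [h4]
  apply ENNReal.mul_lt_top (by simp)
  apply ENNReal.mul_lt_top ENNReal.ofReal_lt_top
  rw [ENNReal.tsum_geometric, ENNReal.inv_lt_top, tsub_pos_iff_lt, sum_V]
  simp only [hr]
  rw [← ENNReal.ofReal_add (Real.exp_pos _).le (Real.exp_pos _).le,
    ← ENNReal.ofReal_add (Real.exp_pos _).le (by positivity), ENNReal.ofReal_lt_one]
  exact h

theorem kil_om (i : ℕ) : kil (om false i) = if Even i then V.d else V.c := by
  unfold om
  by_cases h : Even i
  · simp [h, kil]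
  · simp [h, kil]

/-- the weights of `b`, `c`, `d` -/
theorem al_om (i : ℕ) : al (om false) i .b = 1 ∧
    (Even i → 1 + (i : ℝ) / 4 ≤ al (om false) i .c ∧ 1 + ((i : ℝ) - 1) / 4 ≤ al (om false) i .d) ∧
    (¬ Even i → 1 + (i : ℝ) / 4 ≤ al (om false) i .d ∧
      1 + ((i : ℝ) - 1) / 4 ≤ al (om false) i .c) := by
  induction i with
  | zero =>
    refine ⟨al_zero _ _, fun _ => ?_, fun h => absurd (Even.zero) h⟩
    rw [al_zero, al_zero]
    norm_num
  | succ i ih =>
    obtain ⟨hb, he, ho⟩ := ih
    rw [al_succ, kil_om]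
    by_cases h : Even i
    · obtain ⟨h1, h2⟩ := he h
      have hn : ¬ Even (i + 1) := by
        rw [Nat.even_add_one]; exact fun h' => h' h
      rw [if_pos h]
      have eb : stp V.d (al (om false) i) .b = al (om false) i .b := by
        unfold stp; rw [if_neg (by decide)]
      have ec : stp V.d (al (om false) i) .c = al (om false) i .c := by
        unfold stp; rw [if_neg (by decide)]
      have ed : stp V.d (al (om false) i) .d =
          (al (om false) i .b + al (om false) i .c + al (om false) i .d) / 2 := by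
        unfold stp; rw [if_pos rfl]
      rw [eb, ec, ed]
      refine ⟨hb, fun h' => absurd h' hn, fun _ => ?_⟩
      rw [hb]
      push_cast
      constructor <;> linarith
    · obtain ⟨h1, h2⟩ := ho h
      have hn : Even (i + 1) := by
        rw [Nat.even_add_one]; exact h
      rw [if_neg h]
      have eb : stp V.c (al (om false) i) .b = al (om false) i .b := by
        unfold stp; rw [if_neg (by decide)]
      have ed : stp V.c (al (om false) i) .d = al (om false) i .d := by
        unfold stp; rw [if_neg (by decide)]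
      have ec : stp V.c (al (om false) i) .c =
          (al (om false) i .b + al (om false) i .c + al (om false) i .d) / 2 := by
        unfold stp; rw [if_pos rfl]
      rw [eb, ec, ed]
      refine ⟨hb, fun _ => ?_, fun h' => absurd hn h'⟩
      rw [hb]
      push_cast
      constructor <;> linarith

theorem al_om_ge (i : ℕ) : al (om false) i .b = 1 ∧ (i : ℝ) / 4 ≤ al (om false) i .c ∧
    (i : ℝ) / 4 ≤ al (om false) i .d := by
  obtain ⟨hb, he, ho⟩ := al_om i
  refine ⟨hb, ?_⟩
  by_cases h : Even i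
  · obtain ⟨h1, h2⟩ := he h
    constructor <;> linarith
  · obtain ⟨h1, h2⟩ := ho h
    constructor <;> linarith

end UPaux

open UPaux

theorem t_UP : S_UP := by
  intro s hs
  -- the level
  obtain ⟨k, hk⟩ : ∃ k : ℕ, Real.exp (-(s / 2)) + 2 * Real.exp (-(s / 2) * ((k : ℝ) / 4)) < 1 := by
    have h1 : 0 < 1 - Real.exp (-(s / 2)) := by
      have : Real.exp (-(s / 2)) < 1 := by
        rw [Real.exp_lt_one_iff]; linarith
      linarith
    obtain ⟨k, hk⟩ := exists_nat_gt ((2 / (1 - Real.exp (-(s / 2)))) / (s / 8))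
    refine ⟨k, ?_⟩
    rw [div_lt_iff₀ (by positivity)] at hk
    have h2 : 2 / (1 - Real.exp (-(s / 2))) < Real.exp ((s / 2) * ((k : ℝ) / 4)) := by
      have h3 := Real.add_one_le_exp ((s / 2) * ((k : ℝ) / 4))
      have h4 : (s / 2) * ((k : ℝ) / 4) = k * (s / 8) := by ring
      rw [h4] at h3 ⊢
      linarith
    rw [div_lt_iff₀ h1] at h2
    have h5 : Real.exp (-(s / 2) * ((k : ℝ) / 4)) * Real.exp ((s / 2) * ((k : ℝ) / 4)) = 1 := by
      rw [← Real.exp_add]; simp
    have h6 := Real.exp_pos (-(s / 2) * ((k : ℝ) / 4))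
    have h7 := mul_lt_mul_of_pos_left h2 h6
    rw [← mul_assoc, h5, one_mul] at h7
    linarith
  set ω := om false with hω
  obtain ⟨hb, hc, hd⟩ := al_om_ge k
  have hZk : ZO (shi k ω) (al ω k) (s / 2) < ⊤ := by
    apply ZO_lt_top _ _ (al_tri ω k) _ (by positivity)
    have h1 : Real.exp (-(s / 2) * al ω k .c) ≤ Real.exp (-(s / 2) * ((k : ℝ) / 4)) := by
      apply Real.exp_le_exp.2
      have := mul_le_mul_of_nonneg_left hc (show 0 ≤ s / 2 by positivity)
      linarith
    have h2 : Real.exp (-(s / 2) * al ω k .d) ≤ Real.exp (-(s / 2) * ((k : ℝ) / 4)) := by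
      apply Real.exp_le_exp.2
      have := mul_le_mul_of_nonneg_left hd (show 0 ≤ s / 2 by positivity)
      linarith
    have h3 : Real.exp (-(s / 2) * al ω k .b) = Real.exp (-(s / 2)) := by
      rw [hb, mul_one]
    rw [h3]
    linarith
  set B : ℝ := 2 * (s / 2) * ((ell ω k : ℝ) / 2 ^ k) with hB
  have hit := F_iter ω k (s / 2) B (by positivity) le_rfl k 0 (by omega)
  rw [shi_zero] at hit
  have hZ0 : ZO ω (al ω 0) (s / 2) < ⊤ := by
    have h1 : (2 * ENNReal.ofReal (Real.exp B) * ZO (shi k ω) (al ω k) (s / 2)) ^ 2 ^ k < ⊤ := by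
      apply ENNReal.pow_lt_top
      exact ENNReal.mul_lt_top (ENNReal.mul_lt_top (by simp) ENNReal.ofReal_lt_top) hZk
    have h2 := lt_of_le_of_lt hit h1
    have h3 : (1 : ENNReal) ≤ 2 * ENNReal.ofReal (Real.exp B) := by
      have h4 : (1 : ENNReal) ≤ ENNReal.ofReal (Real.exp B) := by
        rw [ENNReal.one_le_ofReal]
        exact Real.one_le_exp (by positivity)
      calc (1 : ENNReal) = 1 * 1 := by simp
        _ ≤ 2 * ENNReal.ofReal (Real.exp B) := by
            gcongr
            norm_num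
    refine lt_of_le_of_lt ?_ h2
    calc ZO ω (al ω 0) (s / 2) = 1 * ZO ω (al ω 0) (s / 2) := by simp
      _ ≤ _ := by gcongr
  obtain ⟨c, hcn, hcc⟩ : ∃ c : ℝ, 0 ≤ c ∧ ZO ω (al ω 0) (s / 2) ≤ ENNReal.ofReal (Real.exp c) := by
    refine ⟨(ZO ω (al ω 0) (s / 2)).toReal, ENNReal.toReal_nonneg, ?_⟩
    conv_lhs => rw [← ENNReal.ofReal_toReal hZ0.ne]
    apply ENNReal.ofReal_le_ofReal
    have := Real.add_one_le_exp (ZO ω (al ω 0) (s / 2)).toReal
    linarith
  obtain ⟨n₀, hn₀⟩ := exists_nat_gt (2 * c / s)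
  refine ⟨n₀, fun n hn => ?_⟩
  have h1 := F_ball ω n (s / 2) (by positivity)
  have h2 : (ballO ω n : ENNReal) ≤ ENNReal.ofReal (Real.exp (s / 2 * n + c)) := by
    rw [Real.exp_add, ENNReal.ofReal_mul (Real.exp_pos _).le]
    exact h1.trans (by gcongr)
  rw [← ENNReal.ofReal_natCast] at h2
  have h3 := (ENNReal.ofReal_le_ofReal_iff (Real.exp_pos _).le).1 h2
  refine h3.trans (Real.exp_le_exp.2 ?_)
  have h4 : (n₀ : ℝ) ≤ n := by exact_mod_cast hn
  have h5 : 2 * c / s < n := by linarith
  rw [div_lt_iff₀ hs] at h5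
  nlinarith

end Pool.Agent.U640.MS
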