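import Pool.Agent.U640.MS.Ker
import Pool.Agent.U640.MS.UP
import Pool.Agent.U640.MS.LOW
import Pool.Agent.U640.MS.MOR

/-!
Project MS: the final step.
-/

set_option autoImplicit false

namespace Pool.Agent.U640.MS

open Pool.Agent.H776R2.Om Pool.Agent.H776R2.Grig Pool.Agent.Results.MP_03d093_al.SphereBall

/-- the generators as elements of the full group -/
def gF (l : Lt) : fullGroup (T morse) := ⟨gX t_MOR false l, sw_full _ _ _⟩

/-- words as elements of the full group -/
def evF (w : List Lt) : fullGroup (T morse) := (w.map gF).prod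

theorem evF_val (w : List Lt) : (evF w).1 = evX t_MOR false w := by
  induction w with
  | nil => rfl
  | cons l w ih =>
    have h1 : evF (l :: w) = gF l * evF w := by simp [evF]
    rw [h1, evX_cons, ← ih]
    rfl

theorem evF_eq_iff (v w : List Lt) : evF v = evF w ↔ evo (om false) v = evo (om false) w := by
  rw [← evX_eq_iff t_MOR false v w, ← evF_val, ← evF_val]
  exact ⟨fun h => congrArg Subtype.val h, fun h => Subtype.ext h⟩

/-- the subgroup -/
def HH : Subgroup (fullGroup (T morse)) := Subgroup.closure (Set.range gF)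

/-- its generating set -/
def SH : Set HH := Set.range fun l : Lt => (⟨gF l, Subgroup.subset_closure ⟨l, rfl⟩⟩ : HH)

theorem gF_inv (l : Lt) : (gF l)⁻¹ = gF l := by
  apply Subtype.ext
  exact gX_inv t_MOR false l

theorem evF_mem (w : List Lt) : evF w ∈ HH := by
  induction w with
  | nil => exact HH.one_mem
  | cons l w ih =>
    have h1 : evF (l :: w) = gF l * evF w := by simp [evF]
    rw [h1]
    exact HH.mul_mem (Subgroup.subset_closure ⟨l, rfl⟩) ih

theorem ball_eq (r : ℕ) : {g : HH | ∃ l : List HH, l.length ≤ r ∧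
    (∀ s ∈ l, s ∈ SH ∨ s⁻¹ ∈ SH) ∧ l.prod = g} =
    (fun w : List Lt => (⟨evF w, evF_mem w⟩ : HH)) '' {w | w.length ≤ r} := by
  ext g
  constructor
  · rintro ⟨l, hl, hs, rfl⟩
    have key : ∀ l : List HH, (∀ s ∈ l, s ∈ SH ∨ s⁻¹ ∈ SH) →
        ∃ w : List Lt, w.length = l.length ∧ (⟨evF w, evF_mem w⟩ : HH) = l.prod := by
      intro l
      induction l with
      | nil => exact fun _ => ⟨[], rfl, Subtype.ext rfl⟩
      | cons s l ih =>
        intro hs
        obtain ⟨w, hw, he⟩ := ih fun s hs' => hs s (List.mem_cons_of_mem _ hs')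
        have h1 : ∃ m : Lt, gF m = s.1 := by
          rcases hs s List.mem_cons_self with ⟨m, hm⟩ | ⟨m, hm⟩
          · exact ⟨m, congrArg Subtype.val hm⟩
          · refine ⟨m, ?_⟩
            have h2 : gF m = (s.1)⁻¹ := congrArg Subtype.val hm
            rw [← gF_inv, h2, inv_inv]
        obtain ⟨m, hm⟩ := h1
        refine ⟨m :: w, by simp [hw], ?_⟩
        rw [List.prod_cons, ← he]
        apply Subtype.ext
        show evF (m :: w) = s.1 * evF w
        rw [← hm]
        simp [evF]
    obtain ⟨w, hw, he⟩ := key l hs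
    exact ⟨w, by show w.length ≤ r; omega, he⟩
  · rintro ⟨w, hw, rfl⟩
    refine ⟨w.map fun l => (⟨gF l, Subgroup.subset_closure ⟨l, rfl⟩⟩ : HH),
      by simpa using hw, ?_, ?_⟩
    · intro s hs
      obtain ⟨l, -, rfl⟩ := List.mem_map.1 hs
      exact Or.inl ⟨l, rfl⟩
    · apply Subtype.ext
      show ((w.map fun l => (⟨gF l, Subgroup.subset_closure ⟨l, rfl⟩⟩ : HH)).prod : HH).1 = evF w
      induction w with
      | nil => rfl
      | cons l w ih =>
        have h1 : evF (l :: w) = gF l * evF w := by simp [evF]
        rw [h1, List.map_cons, List.prod_cons, ← ih (by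
          have : (l :: w).length ≤ r := hw
          simp only [List.length_cons] at this
          show w.length ≤ r
          omega)]
        rfl

theorem growth_eq (r : ℕ) : growth SH r = ballO (om false) r := by
  unfold growth ballO
  rw [ball_eq]
  have h1 : (fun w : List Lt => (⟨evF w, evF_mem w⟩ : HH)) '' {w | w.length ≤ r} =
      Set.range fun g : {g : Gom (om false) // lenO (om false) g ≤ r} =>
        (⟨evF (exists_geodo (om false) g.1).choose,
          evF_mem (exists_geodo (om false) g.1).choose⟩ : HH) := by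
    ext h
    constructor
    · rintro ⟨w, hw, rfl⟩
      refine ⟨⟨evG (om false) w, (lenO_le (om false) w).trans hw⟩, ?_⟩
      apply Subtype.ext
      show evF _ = evF w
      rw [evF_eq_iff]
      have := (exists_geodo (om false) (evG (om false) w)).choose_spec.2
      exact congrArg Subtype.val this
    · rintro ⟨g, rfl⟩
      refine ⟨(exists_geodo (om false) g.1).choose, ?_, rfl⟩
      show _ ≤ r
      rw [(exists_geodo (om false) g.1).choose_spec.1]
      exact g.2
  rw [h1, ← Set.image_univ, Set.ncard_image_of_injective, Set.ncard_univ]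
  intro g g' hgg
  have h2 : evF (exists_geodo (om false) g.1).choose = evF (exists_geodo (om false) g'.1).choose :=
    congrArg Subtype.val hgg
  rw [evF_eq_iff] at h2
  apply Subtype.ext
  have e1 := (exists_geodo (om false) g.1).choose_spec.2
  have e2 := (exists_geodo (om false) g'.1).choose_spec.2
  rw [← e1, ← e2]
  exact Subtype.ext h2

theorem SH_finite : SH.Finite := Set.finite_range _

theorem SH_closure : Subgroup.closure SH = ⊤ := by
  rw [eq_top_iff]
  rintro ⟨g, hg⟩ -
  have h1 : ∀ g (hg : g ∈ HH), (⟨g, hg⟩ : HH) ∈ Subgroup.closure SH := by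
    intro g hg
    refine Subgroup.closure_induction (p := fun g hg => (⟨g, hg⟩ : HH) ∈ Subgroup.closure SH)
      ?_ ?_ ?_ ?_ hg
    · rintro _ ⟨l, rfl⟩
      exact Subgroup.subset_closure ⟨l, rfl⟩
    · exact one_mem _
    · intro x y hx hy h1 h2
      exact mul_mem h1 h2
    · intro x hx h1
      exact inv_mem h1
  exact h1 g hg

/-- The topological full group of the Morse subshift contains a finitely generated subgroup of
intermediate growth. -/
theorem main : ∃ H : Subgroup (fullGroup (T morse)), IntermediateGrowth H := by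
  refine ⟨HH, SH, SH_finite, SH_closure, ?_, ?_⟩
  · intro d
    obtain ⟨n₀, h⟩ := t_LOW d
    exact ⟨n₀, fun r hr => by rw [growth_eq]; exact h r hr⟩
  · intro c hc
    obtain ⟨n₀, h⟩ := t_UP c hc
    exact ⟨n₀, fun r hr => by rw [growth_eq]; exact h r hr⟩

end Pool.Agent.U640.MS
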