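import Pool.Agent.U640.MS.Stm
import Pool.Agent.H776R2.Om.Contr

/-!
Project MS: the generators as elements of the full group of the Morse subshift and their
recursion.
-/

set_option autoImplicit false

namespace Pool.Agent.U640.MS

open Pool.Agent.H776R2.Om Pool.Agent.H776R2.Grig Pool.Agent.Results.MP_03d093_al.SphereBall

/-- the Morse subshift -/
abbrev MX : Type := subshift morse

/-- the shift -/
abbrev t : MX ≃ₜ MX := T morse

theorem t_apply (x : MX) (i : ℤ) : (t x).1 i = x.1 (i + 1) := rfl
theorem ts_apply (x : MX) (i : ℤ) : (t.symm x).1 i = x.1 (i - 1) := rfl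

/-- the phase of the desubstitution, read off from a window -/
def par (x : MX) : Bool :=
  if x.1 0 = x.1 1 then true else if x.1 1 = x.1 2 then false else
    if x.1 2 = x.1 3 then true else false

theorem cont_coord (i : ℤ) : Continuous fun x : MX => x.1 i :=
  (continuous_apply i).comp continuous_subtype_val

theorem cont_par : Continuous par := by
  have h : Continuous fun x : MX => (x.1 0, x.1 1, x.1 2, x.1 3) :=
    (cont_coord 0).prodMk ((cont_coord 1).prodMk ((cont_coord 2).prodMk (cont_coord 3)))
  have h2 : Continuous fun q : Bool × Bool × Bool × Bool =>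
      (if q.1 = q.2.1 then true else if q.2.1 = q.2.2.1 then false else
        if q.2.2.1 = q.2.2.2 then true else false : Bool) := continuous_of_discreteTopology
  exact h2.comp h

theorem par_spec (hM : S_MOR) {x : MX} {e : Bool}
    (h : ∀ i : ℤ, x.1 (2 * i + bi e + 1) = !(x.1 (2 * i + bi e))) : par x = e := by
  obtain ⟨j, hj0, hj3, hj⟩ := hM.2.2.2 x.1 x.2 0
  unfold par
  cases e
  · have h0 := h 0
    have h1 := h 1
    simp only [bi, Bool.false_eq_true, if_false] at h0 h1
    norm_num at h0 h1
    rw [if_neg (by rw [h0]; simp)]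
    by_cases h12 : x.1 1 = x.1 2
    · rw [if_pos h12]
    · rw [if_neg h12, if_neg (by rw [h1]; simp)]
  · have h0 := h 0
    have h1 := h 1
    simp only [bi, if_true] at h0 h1
    norm_num at h0 h1
    by_cases h01 : x.1 0 = x.1 1
    · rw [if_pos h01]
    · rw [if_neg h01, if_neg (by rw [h0]; simp)]
      by_cases h23 : x.1 2 = x.1 3
      · rw [if_pos h23]
      · exfalso
        have hj' : j = 0 ∨ j = 1 ∨ j = 2 ∨ j = 3 := by omega
        rcases hj' with rfl | rfl | rfl | rfl
        · exact h01 (by simpa using hj)
        · norm_num at hj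
          rw [h0] at hj
          simp at hj
        · norm_num at hj
          exact h23 hj
        · norm_num at hj
          rw [h1] at hj
          simp at hj

theorem par_alt (hM : S_MOR) (x : MX) (i : ℤ) :
    x.1 (2 * i + bi (par x) + 1) = !(x.1 (2 * i + bi (par x))) := by
  obtain ⟨e, y, -, h⟩ := hM.2.1 x.1 x.2
  have h1 : par x = e := par_spec hM fun i => by rw [(h i).1, (h i).2]
  rw [h1, (h i).1, (h i).2]

theorem par_t (hM : S_MOR) (x : MX) : par (t x) = !(par x) := by
  apply par_spec hM
  intro i
  have h := par_alt hM x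
  rw [t_apply, t_apply]
  cases hp : par x
  · rw [hp] at h
    have := h (i + 1)
    simp only [bi, Bool.false_eq_true, if_false, Bool.not_false, if_true] at this ⊢
    have e1 : 2 * i + 1 + 1 + 1 = 2 * (i + 1) + 0 + 1 := by ring
    have e2 : 2 * i + 1 + 1 = 2 * (i + 1) + 0 := by ring
    rw [e1, e2]
    exact this
  · rw [hp] at h
    have := h i
    simp only [bi, if_true, Bool.not_true, Bool.false_eq_true, if_false] at this ⊢
    have e1 : 2 * i + 0 + 1 + 1 = 2 * i + 1 + 1 := by ring
    have e2 : 2 * i + 0 + 1 = 2 * i + 1 := by ring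
    rw [e1, e2]
    exact this

theorem par_ts (hM : S_MOR) (x : MX) : par (t.symm x) = !(par x) := by
  have := par_t hM (t.symm x)
  rw [t.apply_symm_apply] at this
  rw [this, Bool.not_not]

/-- the substitution -/
def mu0 (hM : S_MOR) (y : MX) : MX :=
  ⟨fun n => if n % 2 = 0 then y.1 (n / 2) else !(y.1 (n / 2)), by
    refine hM.2.2.1 y.1 y.2 false _ ?_
    intro i
    simp only [bi, Bool.false_eq_true, if_false]
    have e1 : (2 * i + 0) % 2 = 0 := by omega
    have e2 : (2 * i + 0) / 2 = i := by omega
    have e3 : ¬ (2 * i + 0 + 1) % 2 = 0 := by omega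
    have e4 : (2 * i + 0 + 1) / 2 = i := by omega
    rw [if_pos e1, if_neg e3, e2, e4]
    exact ⟨rfl, rfl⟩⟩

theorem mu0_apply (hM : S_MOR) (y : MX) (n : ℤ) :
    (mu0 hM y).1 n = if n % 2 = 0 then y.1 (n / 2) else !(y.1 (n / 2)) := rfl

theorem par_mu0 (hM : S_MOR) (y : MX) : par (mu0 hM y) = false := by
  apply par_spec hM
  intro i
  simp only [bi, Bool.false_eq_true, if_false]
  have e1 : (2 * i + 0) % 2 = 0 := by omega
  have e2 : (2 * i + 0) / 2 = i := by omega
  have e3 : ¬ (2 * i + 0 + 1) % 2 = 0 := by omega
  have e4 : (2 * i + 0 + 1) / 2 = i := by omega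
  rw [mu0_apply, mu0_apply, if_pos e1, if_neg e3, e2, e4]

theorem mu0_inj (hM : S_MOR) {y y' : MX} (h : mu0 hM y = mu0 hM y') : y = y' := by
  apply Subtype.ext
  funext i
  have h1 := congrFun (congrArg Subtype.val h) (2 * i)
  rw [mu0_apply, mu0_apply, if_pos (by omega), if_pos (by omega)] at h1
  have e : 2 * i / 2 = i := by omega
  rwa [e] at h1

theorem mu0_t (hM : S_MOR) (y : MX) : mu0 hM (t y) = t (t (mu0 hM y)) := by
  apply Subtype.ext
  funext n
  rw [mu0_apply, t_apply, t_apply, t_apply, mu0_apply]
  have e1 : (n + 1 + 1) / 2 = n / 2 + 1 := by omega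
  have e2 : (n + 1 + 1) % 2 = n % 2 := by omega
  rw [e1, e2]

theorem mu0_ts (hM : S_MOR) (y : MX) : mu0 hM (t.symm y) = t.symm (t.symm (mu0 hM y)) := by
  have h := mu0_t hM (t.symm y)
  rw [t.apply_symm_apply] at h
  rw [h, t.symm_apply_apply, t.symm_apply_apply]

theorem mu0_surj (hM : S_MOR) (x : MX) (h : par x = false) : ∃ y, mu0 hM y = x := by
  obtain ⟨e, y, hy, hxy⟩ := hM.2.1 x.1 x.2
  have h1 : par x = e := par_spec hM fun i => by rw [(hxy i).1, (hxy i).2]
  rw [h] at h1
  subst h1
  refine ⟨⟨y, hy⟩, ?_⟩
  apply Subtype.ext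
  funext n
  rw [mu0_apply]
  simp only [bi, Bool.false_eq_true, if_false] at hxy
  by_cases hn : n % 2 = 0
  · rw [if_pos hn]
    have := (hxy (n / 2)).1
    have e : 2 * (n / 2) + 0 = n := by omega
    rw [e] at this
    exact this.symm
  · rw [if_neg hn]
    have := (hxy (n / 2)).2
    have e : 2 * (n / 2) + 0 + 1 = n := by omega
    rw [e] at this
    exact this.symm

/-- the coordinates: `s = false` is the end at the `a`-edge of `y`, `s = true` the other end -/
def psi (hM : S_MOR) (s : Bool) (y : MX) : MX :=
  if par y = s then t (mu0 hM y) else mu0 hM y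

theorem psi_pos (hM : S_MOR) {s : Bool} {y : MX} (h : par y = s) :
    psi hM s y = t (mu0 hM y) := if_pos h

theorem psi_neg (hM : S_MOR) {s : Bool} {y : MX} (h : ¬ par y = s) :
    psi hM s y = mu0 hM y := if_neg h

theorem psi_inj (hM : S_MOR) {s s' : Bool} {y y' : MX} (h : psi hM s y = psi hM s' y') :
    s = s' ∧ y = y' := by
  by_cases h1 : par y = s
  · by_cases h2 : par y' = s'
    · rw [psi_pos hM h1, psi_pos hM h2] at h
      have h3 := mu0_inj hM (t.injective h)
      subst h3
      exact ⟨h1.symm.trans h2, rfl⟩
    · rw [psi_pos hM h1, psi_neg hM h2] at h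
      have h3 := congrArg par h
      rw [par_t hM, par_mu0, par_mu0] at h3
      simp at h3
  · by_cases h2 : par y' = s'
    · rw [psi_neg hM h1, psi_pos hM h2] at h
      have h3 := congrArg par h
      rw [par_t hM, par_mu0, par_mu0] at h3
      simp at h3
    · rw [psi_neg hM h1, psi_neg hM h2] at h
      have h3 := mu0_inj hM h
      subst h3
      refine ⟨?_, rfl⟩
      revert h1 h2
      generalize par y = p
      cases s <;> cases s' <;> cases p <;> simp

theorem psi_surj (hM : S_MOR) (x : MX) : ∃ s y, psi hM s y = x := by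
  cases h : par x
  · obtain ⟨y, hy⟩ := mu0_surj hM x h
    refine ⟨!(par y), y, ?_⟩
    rw [psi_neg hM (by simp), hy]
  · obtain ⟨y, hy⟩ := mu0_surj hM (t.symm x) (by rw [par_ts hM, h]; rfl)
    refine ⟨par y, y, ?_⟩
    rw [psi_pos hM rfl, hy, t.apply_symm_apply]

/-! ### swaps -/

/-- the swap along the edges `(x, T x)` with `R x` -/
def swf (R : MX → Bool) (x : MX) : MX :=
  if R x = true then t x else if R (t.symm x) = true then t.symm x else x

theorem swf_invol {R : MX → Bool} (hd : ∀ x, R x = true → R (t x) = false) (x : MX) :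
    swf R (swf R x) = x := by
  by_cases h1 : R x = true
  · have e : swf R x = t x := by
      unfold swf
      rw [if_pos h1]
    rw [e]
    unfold swf
    rw [hd x h1, t.symm_apply_apply, if_neg (by simp), if_pos h1]
  · by_cases h2 : R (t.symm x) = true
    · have e : swf R x = t.symm x := by
        unfold swf
        rw [if_neg h1, if_pos h2]
      rw [e]
      unfold swf
      rw [if_pos h2, t.apply_symm_apply]
    · have e : swf R x = x := by
        unfold swf
        rw [if_neg h1, if_neg h2]
      rw [e, e]

/-- the exponent of the swap -/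
def swn (R : MX → Bool) (x : MX) : ℤ :=
  if R x = true then 1 else if R (t.symm x) = true then -1 else 0

theorem swf_eq (R : MX → Bool) (x : MX) : swf R x = (t ^ swn R x) x := by
  unfold swf swn
  split_ifs
  · rw [zpow_one]
  · rw [zpow_neg_one]
    rfl
  · rw [zpow_zero]
    rfl

theorem swn_cont {R : MX → Bool} (hc : Continuous R) : Continuous (swn R) := by
  have h : Continuous fun x : MX => (R x, R (t.symm x)) :=
    hc.prodMk (hc.comp t.symm.continuous)
  have h2 : Continuous fun q : Bool × Bool =>
      (if q.1 = true then 1 else if q.2 = true then -1 else 0 : ℤ) :=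
    continuous_of_discreteTopology
  exact h2.comp h

theorem swf_cont {R : MX → Bool} (hc : Continuous R) : Continuous (swf R) := by
  have hcl : ∀ {Q : MX → Bool}, Continuous Q → IsClopen {x | Q x = true} := by
    intro Q hQ
    exact (isClopen_discrete {true}).preimage hQ
  unfold swf
  refine Continuous.if ?_ t.continuous (Continuous.if ?_ t.symm.continuous continuous_id)
  · intro x hx
    rw [(hcl hc).frontier_eq] at hx
    exact absurd hx (Set.notMem_empty _)
  · intro x hx
    have h1 : IsClopen {x | R (t.symm x) = true} := hcl (hc.comp t.symm.continuous)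
    rw [h1.frontier_eq] at hx
    exact absurd hx (Set.notMem_empty _)

/-- the swap as a homeomorphism -/
def sw (R : MX → Bool) (hc : Continuous R) (hd : ∀ x, R x = true → R (t x) = false) :
    MX ≃ₜ MX where
  toFun := swf R
  invFun := swf R
  left_inv := swf_invol hd
  right_inv := swf_invol hd
  continuous_toFun := swf_cont hc
  continuous_invFun := swf_cont hc

theorem sw_full (R : MX → Bool) (hc : Continuous R) (hd : ∀ x, R x = true → R (t x) = false) :
    InFullGroup t (sw R hc hd) :=
  ⟨swn R, swn_cont hc, fun x => swf_eq R x⟩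

/-- the edges of the generators; `p` is the parity of the level -/
def RA (x : MX) : Bool := !(par x)
def RM (x : MX) : Bool := par x && (x.1 0 == x.1 1)
def RN (x : MX) : Bool := par x && !(x.1 0 == x.1 1)

/-- the edges of the letters -/
def RL (p : Bool) : Lt → MX → Bool
  | .A => RA
  | .B => par
  | .C => if p then RN else RM
  | .D => if p then RM else RN

theorem RM_cont : Continuous RM := by
  have h : Continuous fun x : MX => (par x, x.1 0, x.1 1) :=
    cont_par.prodMk ((cont_coord 0).prodMk (cont_coord 1))
  have h2 : Continuous fun q : Bool × Bool × Bool => (q.1 && (q.2.1 == q.2.2) : Bool) :=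
    continuous_of_discreteTopology
  exact h2.comp h

theorem RN_cont : Continuous RN := by
  have h : Continuous fun x : MX => (par x, x.1 0, x.1 1) :=
    cont_par.prodMk ((cont_coord 0).prodMk (cont_coord 1))
  have h2 : Continuous fun q : Bool × Bool × Bool => (q.1 && !(q.2.1 == q.2.2) : Bool) :=
    continuous_of_discreteTopology
  exact h2.comp h

theorem RA_cont : Continuous RA := by
  have h2 : Continuous fun q : Bool => !q := continuous_of_discreteTopology
  exact h2.comp cont_par

theorem RL_cont (p : Bool) (l : Lt) : Continuous (RL p l) := by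
  cases l
  · exact RA_cont
  · exact cont_par
  · cases p
    · exact RM_cont
    · exact RN_cont
  · cases p
    · exact RN_cont
    · exact RM_cont

theorem RM_par {x : MX} (h : RM x = true) : par x = true := by
  unfold RM at h
  simp only [Bool.and_eq_true] at h
  exact h.1

theorem RN_par {x : MX} (h : RN x = true) : par x = true := by
  unfold RN at h
  simp only [Bool.and_eq_true] at h
  exact h.1

/-- the edges of the letters `b, c, d` -/
theorem RL_par (p : Bool) (l : Lt) (hl : l ≠ .A) {x : MX} (h : RL p l x = true) :
    par x = true := by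
  cases l
  · exact absurd rfl hl
  · exact h
  · cases p
    · exact RM_par h
    · exact RN_par h
  · cases p
    · exact RN_par h
    · exact RM_par h

theorem RL_disj (hM : S_MOR) (p : Bool) (l : Lt) (x : MX) (h : RL p l x = true) :
    RL p l (t x) = false := by
  by_cases hl : l = .A
  · subst hl
    change (!(par x)) = true at h
    change (!(par (t x))) = false
    rw [par_t hM]
    simpa using h
  · have h1 := RL_par p l hl h
    by_contra h2
    have h3 := RL_par p l hl (by simpa using h2 : RL p l (t x) = true)
    rw [par_t hM, h1] at h3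
    simp at h3

/-- the generators -/
def gX (hM : S_MOR) (p : Bool) (l : Lt) : MX ≃ₜ MX :=
  sw (RL p l) (RL_cont p l) (RL_disj hM p l)

theorem gX_apply (hM : S_MOR) (p : Bool) (l : Lt) (x : MX) : gX hM p l x = swf (RL p l) x := rfl

theorem gX_sq (hM : S_MOR) (p : Bool) (l : Lt) : gX hM p l * gX hM p l = 1 := by
  ext1 x
  exact swf_invol (RL_disj hM p l) x

theorem gX_inv (hM : S_MOR) (p : Bool) (l : Lt) : (gX hM p l)⁻¹ = gX hM p l :=
  inv_eq_of_mul_eq_one_left (gX_sq hM p l)

/-- product of two swaps along edges of phase `true` -/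
theorem swf_mul (hM : S_MOR) {R S Q : MX → Bool} (hR : ∀ x, R x = true → par x = true)
    (hS : ∀ x, S x = true → par x = true) (hQ : ∀ x, Q x = xor (R x) (S x)) (x : MX) :
    swf R (swf S x) = swf Q x := by
  have key : ∀ (R : MX → Bool), (∀ x, R x = true → par x = true) → ∀ x, par x = false →
      R x = false := by
    intro R hR x hx
    by_contra h
    have := hR x (by simpa using h)
    rw [hx] at this
    simp at this
  have hQp : ∀ x, Q x = true → par x = true := by
    intro x hx
    rw [hQ] at hx
    by_cases h1 : R x = true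
    · exact hR x h1
    · apply hS x
      simp only [Bool.not_eq_true] at h1
      rw [h1] at hx
      simpa using hx
  have form : ∀ (R : MX → Bool), (∀ x, R x = true → par x = true) → ∀ x,
      (par x = true → swf R x = if R x = true then t x else x) ∧
      (par x = false → swf R x = if R (t.symm x) = true then t.symm x else x) := by
    intro R hR x
    constructor
    · intro hx
      unfold swf
      have h1 : R (t.symm x) = false := key R hR _ (by rw [par_ts hM, hx]; rfl)
      rw [h1]
      simp
    · intro hx
      unfold swf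
      rw [key R hR x hx]
      simp
  cases hx : par x
  · have hx' : par (t.symm x) = true := by rw [par_ts hM, hx]; rfl
    rw [(form S hS x).2 hx, (form Q hQp x).2 hx, hQ]
    by_cases h1 : S (t.symm x) = true
    · rw [if_pos h1, (form R hR _).1 hx', h1]
      by_cases h2 : R (t.symm x) = true
      · rw [if_pos h2, h2]
        simp
      · simp only [Bool.not_eq_true] at h2
        rw [h2]
        simp
    · rw [if_neg h1, (form R hR _).2 hx]
      simp only [Bool.not_eq_true] at h1
      rw [h1]
      simp
  · have hx' : par (t x) = false := by rw [par_t hM, hx]; rfl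
    rw [(form S hS x).1 hx, (form Q hQp x).1 hx, hQ]
    by_cases h1 : S x = true
    · rw [if_pos h1, (form R hR _).2 hx', h1, t.symm_apply_apply]
      by_cases h2 : R x = true
      · rw [if_pos h2, h2]
        simp
      · simp only [Bool.not_eq_true] at h2
        rw [h2]
        simp
    · rw [if_neg h1, (form R hR _).1 hx]
      simp only [Bool.not_eq_true] at h1
      rw [h1]
      simp

/-- optional letter as an element -/
def elX (hM : S_MOR) (p : Bool) : Option V → (MX ≃ₜ MX)
  | none => 1
  | some x => gX hM p x.lt

theorem V_lt_ne (x : V) : x.lt ≠ .A := by cases x <;> simp [V.lt]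

theorem RMN (x : MX) : par x = xor (RM x) (RN x) := by
  unfold RM RN
  cases par x <;> cases (x.1 0 == x.1 1) <;> rfl

theorem gX_mul (hM : S_MOR) (p : Bool) (x y z : V)
    (h : ∀ u, RL p z.lt u = xor (RL p x.lt u) (RL p y.lt u)) :
    gX hM p x.lt * gX hM p y.lt = gX hM p z.lt := by
  ext1 u
  exact swf_mul hM (fun u => RL_par p _ (V_lt_ne x)) (fun u => RL_par p _ (V_lt_ne y)) h u

theorem elX_mul (hM : S_MOR) (p : Bool) (x : V) (y : Option V) :
    gX hM p x.lt * elX hM p y = elX hM p (D_mul x y) := by
  rcases y with _ | y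
  · cases x <;> simp [D_mul, elX]
  · cases x <;> cases y
    · exact gX_sq hM p _
    · refine gX_mul hM p _ _ .d fun u => ?_
      cases p <;> simp only [RL, V.lt] <;> simp <;> rw [RMN u] <;> cases RM u <;> cases RN u <;> rfl
    · refine gX_mul hM p _ _ .c fun u => ?_
      cases p <;> simp only [RL, V.lt] <;> simp <;> rw [RMN u] <;> cases RM u <;> cases RN u <;> rfl
    · refine gX_mul hM p _ _ .d fun u => ?_
      cases p <;> simp only [RL, V.lt] <;> simp <;> rw [RMN u] <;> cases RM u <;> cases RN u <;> rfl
    · exact gX_sq hM p _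
    · refine gX_mul hM p _ _ .b fun u => ?_
      cases p <;> simp only [RL, V.lt] <;> simp <;> rw [RMN u] <;> cases RM u <;> cases RN u <;> rfl
    · refine gX_mul hM p _ _ .c fun u => ?_
      cases p <;> simp only [RL, V.lt] <;> simp <;> rw [RMN u] <;> cases RM u <;> cases RN u <;> rfl
    · refine gX_mul hM p _ _ .b fun u => ?_
      cases p <;> simp only [RL, V.lt] <;> simp <;> rw [RMN u] <;> cases RM u <;> cases RN u <;> rfl
    · exact gX_sq hM p _

end Pool.Agent.U640.MS
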