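import Pool.Agent.U640.MS.Dyn
import Pool.Agent.H776R2.Om.Basic

/-!
Project MS: words in the generators act trivially on the Morse subshift iff they are trivial in the
Grigorchuk group.
-/

set_option autoImplicit false

namespace Pool.Agent.U640.MS

open Pool.Agent.H776R2.Om Pool.Agent.H776R2.Grig Pool.Agent.Results.MP_03d093_al.SphereBall

theorem sh_om (p : Bool) : sh (om p) = om (!p) := by
  funext n
  show (if decide (Even (n + 1)) = p then (1 : Fin 3) else 0) =
    if decide (Even n) = !p then 1 else 0
  by_cases h : Even n
  · have h' : ¬ Even (n + 1) := by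
      rw [Nat.even_add_one]
      simpa using h
    rw [decide_eq_false h', decide_eq_true h]
    cases p <;> rfl
  · have h' : Even (n + 1) := by
      rw [Nat.even_add_one]
      exact h
    rw [decide_eq_true h', decide_eq_false h]
    cases p <;> rfl

theorem om_zero (p : Bool) : om p 0 = if p then 1 else 0 := by
  cases p <;> rfl

/-! ### swaps in coordinates -/

theorem swf_psi (hM : S_MOR) {R R' : MX → Bool} (s : Bool)
    (h1 : ∀ y, R (mu0 hM y) = false)
    (h2 : ∀ y, par y = s → R (t (mu0 hM y)) = R' y)
    (h3 : ∀ y, par y ≠ s → R' y = false) (y : MX) :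
    swf R (psi hM s y) = psi hM s (swf R' y) := by
  have e1 : t.symm (mu0 hM y) = t (mu0 hM (t.symm y)) := by
    rw [mu0_ts, t.apply_symm_apply]
  by_cases hs : par y = s
  · rw [psi_pos hM hs]
    have hs' : par (t.symm y) ≠ s := by
      rw [par_ts hM, hs]
      cases s <;> simp
    have hs'' : par (t y) ≠ s := by
      rw [par_t hM, hs]
      cases s <;> simp
    by_cases hR : R' y = true
    · have a1 : swf R' y = t y := by
        unfold swf
        rw [if_pos hR]
      have a2 : swf R (t (mu0 hM y)) = t (t (mu0 hM y)) := by
        unfold swf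
        rw [h2 y hs, if_pos hR]
      rw [a1, a2, psi_neg hM hs'', mu0_t]
    · have a1 : swf R' y = y := by
        unfold swf
        rw [if_neg hR, h3 _ hs', if_neg (by simp)]
      have a2 : swf R (t (mu0 hM y)) = t (mu0 hM y) := by
        unfold swf
        rw [h2 y hs, if_neg hR, t.symm_apply_apply, h1, if_neg (by simp)]
      rw [a1, a2, psi_pos hM hs]
  · rw [psi_neg hM hs]
    have hs' : par (t.symm y) = s := by
      rw [par_ts hM]
      revert hs
      cases par y <;> cases s <;> simp
    by_cases hR : R' (t.symm y) = true
    · have a1 : swf R' y = t.symm y := by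
        unfold swf
        rw [h3 y hs, if_neg (by simp), if_pos hR]
      have a2 : swf R (mu0 hM y) = t.symm (mu0 hM y) := by
        unfold swf
        rw [h1, if_neg (by simp), e1, h2 _ hs', if_pos hR]
      rw [a1, a2, psi_pos hM hs', e1]
    · have a1 : swf R' y = y := by
        unfold swf
        rw [h3 y hs, if_neg (by simp), if_neg hR]
      have a2 : swf R (mu0 hM y) = mu0 hM y := by
        unfold swf
        rw [h1, if_neg (by simp), e1, h2 _ hs', if_neg hR]
      rw [a1, a2, psi_neg hM hs]

theorem swf_A_psi (hM : S_MOR) (s : Bool) (y : MX) :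
    swf RA (psi hM s y) = psi hM (!s) y := by
  by_cases hs : par y = s
  · have hs' : ¬ par y = !s := by
      rw [hs]
      cases s <;> simp
    rw [psi_pos hM hs, psi_neg hM hs']
    have h1 : RA (t (mu0 hM y)) = false := by
      show (!(par _)) = false
      rw [par_t hM, par_mu0]
      rfl
    have h2 : RA (mu0 hM y) = true := by
      show (!(par _)) = true
      rw [par_mu0]
      rfl
    unfold swf
    rw [h1, if_neg (by simp), t.symm_apply_apply, if_pos h2]
  · have hs' : par y = !s := by
      revert hs
      cases par y <;> cases s <;> simp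
    rw [psi_neg hM hs, psi_pos hM hs']
    have h2 : RA (mu0 hM y) = true := by
      show (!(par _)) = true
      rw [par_mu0]
      rfl
    unfold swf
    rw [if_pos h2]

theorem mu0_par_false (hM : S_MOR) {R : MX → Bool} (hR : ∀ x, R x = true → par x = true)
    (y : MX) : R (mu0 hM y) = false := by
  by_contra h
  have := hR _ (by simpa using h)
  rw [par_mu0] at this
  simp at this

theorem tmu0_par (hM : S_MOR) (y : MX) : par (t (mu0 hM y)) = true := by
  rw [par_t hM, par_mu0]
  rfl

theorem tmu0_zero (hM : S_MOR) (y : MX) : (t (mu0 hM y)).1 0 = !(y.1 0) := by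
  rw [t_apply, mu0_apply]
  norm_num

theorem tmu0_one (hM : S_MOR) (y : MX) : (t (mu0 hM y)).1 1 = y.1 1 := by
  rw [t_apply, mu0_apply]
  norm_num

theorem par_false_ne (hM : S_MOR) {y : MX} (h : par y = false) : y.1 1 = !(y.1 0) := by
  have := par_alt hM y 0
  rw [h] at this
  simpa [bi] using this

theorem RM_tmu0 (hM : S_MOR) (y : MX) : RM (t (mu0 hM y)) = !(y.1 0 == y.1 1) := by
  unfold RM
  rw [tmu0_par, tmu0_zero, tmu0_one]
  cases y.1 0 <;> cases y.1 1 <;> rfl

theorem RN_tmu0 (hM : S_MOR) (y : MX) : RN (t (mu0 hM y)) = (y.1 0 == y.1 1) := by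
  unfold RN
  rw [tmu0_par, tmu0_zero, tmu0_one]
  cases y.1 0 <;> cases y.1 1 <;> rfl

theorem RA_ne (y : MX) (h : par y ≠ false) : RA y = false := by
  unfold RA
  simp only [Bool.not_eq_false] at h
  rw [h]
  rfl

theorem par_ne (y : MX) (h : par y ≠ true) : par y = false := by simpa using h

theorem RM_ne (y : MX) (h : par y ≠ true) : RM y = false := by
  by_contra h1
  exact h (RM_par (by simpa using h1))

theorem RN_ne (y : MX) (h : par y ≠ true) : RN y = false := by
  by_contra h1
  exact h (RN_par (by simpa using h1))

/-- the output of a letter -/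
def outl (k : Fin 3) (s : Bool) (l : Lt) : List Lt :=
  match l, s with
  | .A, _ => []
  | .B, true => [.B]
  | .C, true => [.C]
  | .D, true => [.D]
  | .B, false => if col k .b then [.A] else []
  | .C, false => if col k .c then [.A] else []
  | .D, false => if col k .d then [.A] else []

/-- the new side -/
def nside (l : Lt) (s : Bool) : Bool :=
  match l with
  | .A => !s
  | _ => s

/-- words as elements -/
def evX (hM : S_MOR) (p : Bool) (w : List Lt) : MX ≃ₜ MX := (w.map (gX hM p)).prod

theorem evX_nil (hM : S_MOR) (p : Bool) : evX hM p [] = 1 := rfl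

theorem evX_cons (hM : S_MOR) (p : Bool) (l : Lt) (w : List Lt) :
    evX hM p (l :: w) = gX hM p l * evX hM p w := by simp [evX]

theorem evX_append (hM : S_MOR) (p : Bool) (v w : List Lt) :
    evX hM p (v ++ w) = evX hM p v * evX hM p w := by simp [evX]

theorem evX_one (hM : S_MOR) (p : Bool) (l : Lt) : evX hM p [l] = gX hM p l := by simp [evX]

theorem evX_reverse (hM : S_MOR) (p : Bool) (w : List Lt) :
    evX hM p w.reverse = (evX hM p w)⁻¹ := by
  induction w with
  | nil => simp [evX]
  | cons l w ih =>
    rw [List.reverse_cons, evX_append, evX_one, ih, evX_cons, mul_inv_rev, gX_inv]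

/-- the recursion of the letters on the Morse subshift -/
theorem gX_psi (hM : S_MOR) (p : Bool) (l : Lt) (s : Bool) (y : MX) :
    gX hM p l (psi hM s y) =
      psi hM (nside l s) (evX hM (!p) (outl (om p 0) s l) y) := by
  have hone : ∀ y : MX, (1 : MX ≃ₜ MX) y = y := fun _ => rfl
  have hA : ∀ q, swf RA y = evX hM q [.A] y := by
    intro q
    rw [evX_one]
    rfl
  have hid : ∀ {R : MX → Bool}, (∀ x, R x = false) → ∀ y : MX, swf R y = y := by
    intro R hR y
    unfold swf
    rw [hR, hR, if_neg (by simp), if_neg (by simp)]
  -- the section at the `a`-end for an active letter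
  have hact : ∀ {R : MX → Bool}, (∀ x, R x = true → par x = true) →
      (∀ y, par y = false → R (t (mu0 hM y)) = true) →
      swf R (psi hM false y) = psi hM false (swf RA y) := by
    intro R hR h2
    refine swf_psi hM false (mu0_par_false hM hR) ?_ RA_ne y
    intro y hy
    rw [h2 y hy]
    show true = !(par y)
    rw [hy]
    rfl
  -- the section at the `a`-end for an inactive letter
  have hina : ∀ {R : MX → Bool}, (∀ x, R x = true → par x = true) →
      (∀ y, par y = false → R (t (mu0 hM y)) = false) →
      swf R (psi hM false y) = psi hM false y := by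
    intro R hR h2
    have := swf_psi hM (R := R) (R' := fun _ => false) false (mu0_par_false hM hR)
      (fun y hy => h2 y hy) (fun _ _ => rfl) y
    rw [this, hid (fun _ => rfl)]
  have hRM1 : ∀ y : MX, par y = false → RM (t (mu0 hM y)) = true := by
    intro y hy
    rw [RM_tmu0, par_false_ne hM hy]
    cases y.1 0 <;> rfl
  have hRN0 : ∀ y : MX, par y = false → RN (t (mu0 hM y)) = false := by
    intro y hy
    rw [RN_tmu0, par_false_ne hM hy]
    cases y.1 0 <;> rfl
  have hRMt : swf RM (psi hM true y) = psi hM true (swf RN y) := by
    refine swf_psi hM true (mu0_par_false hM fun _ => RM_par) ?_ RN_ne y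
    intro y hy
    rw [RM_tmu0]
    unfold RN
    rw [hy]
    rfl
  have hRNt : swf RN (psi hM true y) = psi hM true (swf RM y) := by
    refine swf_psi hM true (mu0_par_false hM fun _ => RN_par) ?_ RM_ne y
    intro y hy
    rw [RN_tmu0]
    unfold RM
    rw [hy]
    rfl
  have hBt : swf par (psi hM true y) = psi hM true (swf par y) := by
    refine swf_psi hM true (par_mu0 hM) ?_ par_ne y
    intro y hy
    rw [tmu0_par, hy]
  rw [gX_apply]
  cases l
  · -- A
    show swf RA (psi hM s y) = psi hM (!s) (evX hM (!p) [] y)
    rw [swf_A_psi, evX_nil, hone]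
  · -- B
    cases s
    · show swf par (psi hM false y) = psi hM false (evX hM (!p) (if col (om p 0) .b then [.A] else []) y)
      have hc : col (om p 0) .b = true := by
        rw [om_zero]
        cases p <;> rfl
      rw [hc, if_pos rfl, ← hA]
      exact hact (fun _ h => h) (fun y _ => tmu0_par hM y)
    · show swf par (psi hM true y) = psi hM true (evX hM (!p) [.B] y)
      rw [evX_one]
      exact hBt
  · -- C
    cases s
    · cases p
      · show swf RM (psi hM false y) = psi hM false (evX hM true [.A] y)
        rw [← hA]
        exact hact (fun _ => RM_par) hRM1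
      · show swf RN (psi hM false y) = psi hM false (evX hM false [] y)
        rw [evX_nil, hone]
        exact hina (fun _ => RN_par) hRN0
    · cases p
      · show swf RM (psi hM true y) = psi hM true (evX hM true [.C] y)
        rw [evX_one]
        exact hRMt
      · show swf RN (psi hM true y) = psi hM true (evX hM false [.C] y)
        rw [evX_one]
        exact hRNt
  · -- D
    cases s
    · cases p
      · show swf RN (psi hM false y) = psi hM false (evX hM true [] y)
        rw [evX_nil, hone]
        exact hina (fun _ => RN_par) hRN0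
      · show swf RM (psi hM false y) = psi hM false (evX hM false [.A] y)
        rw [← hA]
        exact hact (fun _ => RM_par) hRM1
    · cases p
      · show swf RN (psi hM true y) = psi hM true (evX hM true [.D] y)
        rw [evX_one]
        exact hRNt
      · show swf RM (psi hM true y) = psi hM true (evX hM false [.D] y)
        rw [evX_one]
        exact hRMt

/-- the recursion of the letters in the Grigorchuk group -/
theorem gno_rec (ω : Om) (l : Lt) (s : Bool) (v : List Bool) :
    gno ω l (s :: v) = nside l s :: evo (sh ω) (outl (ω 0) s l) v := by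
  have hA : ∀ η : Om, evo η [.A] v = aFun v := by
    intro η
    simp [evo, gno]
    rfl
  cases l
  · show aFun (s :: v) = _
    cases s <;> simp [aFun, nside, outl, evo]
  · show xFun .b ω (s :: v) = _
    cases s
    · simp only [xFun, nside, outl]
      split_ifs
      · rw [hA]
      · simp [evo]
    · simp only [xFun, nside, outl]
      simp [evo, gno]
      rfl
  · show xFun .c ω (s :: v) = _
    cases s
    · simp only [xFun, nside, outl]
      split_ifs
      · rw [hA]
      · simp [evo]
    · simp only [xFun, nside, outl]
      simp [evo, gno]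
      rfl
  · show xFun .d ω (s :: v) = _
    cases s
    · simp only [xFun, nside, outl]
      split_ifs
      · rw [hA]
      · simp [evo]
    · simp only [xFun, nside, outl]
      simp [evo, gno]
      rfl

/-- sections of words -/
def secw (k : Fin 3) (s : Bool) : List Lt → List Lt × Bool
  | [] => ([], s)
  | l :: w => (outl k (secw k s w).2 l ++ (secw k s w).1, nside l (secw k s w).2)

theorem evo_rec (ω : Om) (w : List Lt) (s : Bool) (v : List Bool) :
    evo ω w (s :: v) = (secw (ω 0) s w).2 :: evo (sh ω) (secw (ω 0) s w).1 v := by
  induction w with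
  | nil => simp [secw, evo]
  | cons l w ih =>
    rw [D_evo_cons, Equiv.Perm.mul_apply, ih, gno_rec]
    simp only [secw]
    rw [D_evo_append, Equiv.Perm.mul_apply]

theorem evX_psi (hM : S_MOR) (p : Bool) (w : List Lt) (s : Bool) (y : MX) :
    evX hM p w (psi hM s y) =
      psi hM (secw (om p 0) s w).2 (evX hM (!p) (secw (om p 0) s w).1 y) := by
  induction w with
  | nil => rfl
  | cons l w ih =>
    rw [evX_cons]
    show gX hM p l (evX hM p w (psi hM s y)) = _
    rw [ih, gX_psi]
    simp only [secw]
    rw [evX_append]
    rfl

theorem outl_length (k : Fin 3) (s : Bool) (l : Lt) : (outl k s l).length ≤ 1 := by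
  cases l <;> cases s <;> simp only [outl] <;> (try split_ifs) <;> simp

theorem secw_length (k : Fin 3) (s : Bool) (w : List Lt) :
    (secw k s w).1.length ≤ w.length ∧ (Lt.A ∈ w → (secw k s w).1.length < w.length) := by
  induction w with
  | nil => simp [secw]
  | cons l w ih =>
    simp only [secw, List.length_append, List.length_cons]
    have h := outl_length k (secw k s w).2 l
    refine ⟨by omega, ?_⟩
    intro hA
    rcases List.mem_cons.1 hA with h1 | h1
    · subst h1
      have : (outl k (secw k s w).2 .A).length = 0 := by
        simp [outl]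
      omega
    · have := ih.2 h1
      omega

/-- value of a word without `a` -/
def vval : List Lt → Option V
  | [] => none
  | .A :: w => vval w
  | .B :: w => D_mul .b (vval w)
  | .C :: w => D_mul .c (vval w)
  | .D :: w => D_mul .d (vval w)

theorem evX_vval (hM : S_MOR) (p : Bool) (w : List Lt) (h : Lt.A ∉ w) :
    evX hM p w = elX hM p (vval w) := by
  induction w with
  | nil => rfl
  | cons l w ih =>
    have h' : Lt.A ∉ w := fun h1 => h (List.mem_cons_of_mem _ h1)
    rw [evX_cons, ih h']
    cases l
    · exact absurd List.mem_cons_self h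
    · exact elX_mul hM p .b _
    · exact elX_mul hM p .c _
    · exact elX_mul hM p .d _

theorem evo_vval (ω : Om) (w : List Lt) (h : Lt.A ∉ w) : evo ω w = D_el ω (vval w) := by
  induction w with
  | nil => rfl
  | cons l w ih =>
    have h' : Lt.A ∉ w := fun h1 => h (List.mem_cons_of_mem _ h1)
    rw [D_evo_cons, ih h']
    cases l
    · exact absurd List.mem_cons_self h
    · exact D_mul_el ω .b _
    · exact D_mul_el ω .c _
    · exact D_mul_el ω .d _

theorem MX_nonempty (hM : S_MOR) : Nonempty MX := by
  obtain ⟨x, hx⟩ := hM.1
  exact ⟨⟨x, hx⟩⟩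

/-- the letters act nontrivially -/
theorem gX_ne_one (hM : S_MOR) (p : Bool) (x : V) : gX hM p x.lt ≠ 1 := by
  obtain ⟨y⟩ := MX_nonempty hM
  have hA : ∀ q : Bool, ∀ s : Bool, ∀ y : MX, evX hM q [.A] (psi hM s y) ≠ psi hM s y := by
    intro q s y h
    rw [evX_one, gX_apply] at h
    change swf RA (psi hM s y) = psi hM s y at h
    rw [swf_A_psi] at h
    have := (psi_inj hM h).1
    cases s <;> simp at this
  have hcol : ∀ (p : Bool) (l : Lt), outl (om p 0) false l = [.A] → nside l false = false →
      gX hM p l ≠ 1 := by
    intro p l h1 h2 h3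
    have h4 := gX_psi hM p l false (psi hM false y)
    rw [h3, h1, h2] at h4
    have h5 := (psi_inj hM h4).2
    exact hA _ _ _ h5.symm
  have hC : ∀ p, outl (om p 0) true .C = [.C] := fun p => rfl
  have hsub : ∀ (p : Bool) (l : Lt), outl (om p 0) true l = [l] → nside l true = true →
      gX hM (!p) l ≠ 1 → gX hM p l ≠ 1 := by
    intro p l h1 h2 h3 h4
    apply h3
    ext1 y
    have h5 := gX_psi hM p l true y
    rw [h4, h1, h2, evX_one] at h5
    exact ((psi_inj hM h5).2).symm
  cases x
  · exact hcol p .B (by rw [om_zero]; cases p <;> rfl) rfl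
  · cases p
    · exact hcol false .C rfl rfl
    · exact hsub true .C rfl rfl (hcol false .C rfl rfl)
  · cases p
    · exact hsub false .D rfl rfl (hcol true .D rfl rfl)
    · exact hcol true .D rfl rfl

theorem xx_ne_one (p : Bool) (x : V) : xx (om p) x ≠ 1 := by
  have hcol : ∀ (p : Bool) (l : Lt), outl (om p 0) false l = [.A] → nside l false = false →
      gno (om p) l ≠ 1 := by
    intro p l h1 h2 h3
    have h4 := gno_rec (om p) l false [false]
    rw [h3, h1, h2] at h4
    have h5 : evo (sh (om p)) [Lt.A] [false] = [true] := by
      simp [evo, gno]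
      rfl
    rw [h5] at h4
    simp at h4
  have hsub : ∀ (p : Bool) (l : Lt), outl (om p 0) true l = [l] → nside l true = true →
      gno (om (!p)) l ≠ 1 → gno (om p) l ≠ 1 := by
    intro p l h1 h2 h3 h4
    apply h3
    ext1 v
    have h5 := gno_rec (om p) l true v
    rw [h4, h1, h2, sh_om] at h5
    have h6 := (List.cons.inj h5).2
    have h7 : evo (om (!p)) [l] v = gno (om (!p)) l v := by simp [evo]
    rw [h7] at h6
    exact h6.symm
  rw [← D_gno_lt]
  cases x
  · exact hcol p .B (by rw [om_zero]; cases p <;> rfl) rfl
  · cases p
    · exact hcol false .C rfl rfl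
    · exact hsub true .C rfl rfl (hcol false .C rfl rfl)
  · cases p
    · exact hsub false .D rfl rfl (hcol true .D rfl rfl)
    · exact hcol true .D rfl rfl

theorem ker_eq (hM : S_MOR) (n : ℕ) : ∀ (p : Bool) (w : List Lt), w.length ≤ n →
    (evX hM p w = 1 ↔ evo (om p) w = 1) := by
  obtain ⟨y₀⟩ := MX_nonempty hM
  induction n with
  | zero =>
    intro p w hw
    obtain rfl : w = [] := List.length_eq_zero_iff.1 (by omega)
    simp [evX, evo]
  | succ n ih =>
    intro p w hw
    by_cases hA : Lt.A ∈ w
    · have hl : ∀ s, (secw (om p 0) s w).1.length ≤ n := by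
        intro s
        have := (secw_length (om p 0) s w).2 hA
        omega
      constructor
      · intro h
        have h1 : ∀ s, (secw (om p 0) s w).2 = s ∧ evo (om (!p)) (secw (om p 0) s w).1 = 1 := by
          intro s
          have h2 : ∀ y, psi hM s y = psi hM (secw (om p 0) s w).2
              (evX hM (!p) (secw (om p 0) s w).1 y) := by
            intro y
            rw [← evX_psi, h]
            rfl
          refine ⟨((psi_inj hM (h2 y₀)).1).symm, ?_⟩
          rw [← ih (!p) _ (hl s)]
          ext1 y
          exact ((psi_inj hM (h2 y)).2).symm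
        ext1 v
        cases v with
        | nil => rw [evo_nil_apply]; rfl
        | cons s v =>
          rw [evo_rec, sh_om, (h1 s).1, (h1 s).2]
          rfl
      · intro h
        have h1 : ∀ s, (secw (om p 0) s w).2 = s ∧ evX hM (!p) (secw (om p 0) s w).1 = 1 := by
          intro s
          have h2 : ∀ v, s :: v = (secw (om p 0) s w).2 ::
              evo (om (!p)) (secw (om p 0) s w).1 v := by
            intro v
            rw [← sh_om, ← evo_rec, h]
            rfl
          refine ⟨((List.cons.inj (h2 [])).1).symm, ?_⟩
          rw [ih (!p) _ (hl s)]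
          ext1 v
          exact ((List.cons.inj (h2 v)).2).symm
        ext1 x
        obtain ⟨s, y, rfl⟩ := psi_surj hM x
        rw [evX_psi, (h1 s).1, (h1 s).2]
        rfl
    · rw [evX_vval hM p w hA, evo_vval (om p) w hA]
      cases hv : vval w with
      | none => simp [elX, D_el]
      | some x =>
        constructor
        · intro h
          exact absurd h (gX_ne_one hM p x)
        · intro h
          exact absurd h (xx_ne_one p x)

/-- two words give the same element of the full group iff they are equal in the Grigorchuk group -/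
theorem evX_eq_iff (hM : S_MOR) (p : Bool) (v w : List Lt) :
    evX hM p v = evX hM p w ↔ evo (om p) v = evo (om p) w := by
  have h := ker_eq hM (v ++ w.reverse).length p (v ++ w.reverse) le_rfl
  rw [evX_append, evX_reverse, evo_append, evo_reverse, mul_inv_eq_one, mul_inv_eq_one] at h
  exact h

end Pool.Agent.U640.MS
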